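import Mathlib

set_option autoImplicit false

/-! For any `n` linear functionals on a `D`-dimensional Euclidean space, some unit vector `e_i`
agrees on all functionals with a vector of norm at most the square root of `n / D`. -/

namespace Pool.Agent.H5.Gain

open Module

theorem exists_small_projection (D n : ℕ) (hD : 0 < D)
    (l : Fin n → (EuclideanSpace ℝ (Fin D) →ₗ[ℝ] ℝ)) :
    ∃ (i : Fin D) (p : EuclideanSpace ℝ (Fin D)),
      (∀ k, l k (EuclideanSpace.single i 1) = l k p) ∧ ‖p‖ ^ 2 * D ≤ n ∧ p i = ‖p‖ ^ 2 := by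
  classical
  set A : EuclideanSpace ℝ (Fin D) →ₗ[ℝ] (Fin n → ℝ) := LinearMap.pi l with hA
  set N : Submodule ℝ (EuclideanSpace ℝ (Fin D)) := LinearMap.ker A with hN
  set K : Submodule ℝ (EuclideanSpace ℝ (Fin D)) := Nᗮ with hK
  have hfr : finrank ℝ K ≤ n := by
    have h1 := Submodule.finrank_add_finrank_orthogonal N
    have h2 := LinearMap.finrank_range_add_finrank_ker A
    have h3 : finrank ℝ (LinearMap.range A) ≤ n := by
      have := Submodule.finrank_le (LinearMap.range A)
      simpa using this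
    have h4 : finrank ℝ N + finrank ℝ K = finrank ℝ (EuclideanSpace ℝ (Fin D)) := h1
    have h5 : finrank ℝ (LinearMap.range A) + finrank ℝ N
        = finrank ℝ (EuclideanSpace ℝ (Fin D)) := h2
    omega
  set P : Fin D → EuclideanSpace ℝ (Fin D) :=
    fun i => K.starProjection (EuclideanSpace.single i 1) with hP
  -- sum of squared norms
  have hsum : ∑ i, ‖P i‖ ^ 2 ≤ (n : ℝ) := by
    set e := stdOrthonormalBasis ℝ K
    have h1 : ∀ i, ‖P i‖ ^ 2
        = ∑ k, (inner ℝ (e k : EuclideanSpace ℝ (Fin D)) (EuclideanSpace.single i (1 : ℝ))) ^ 2 := by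
      intro i
      have h2 := e.sum_sq_norm_inner_right
        (K.orthogonalProjectionOnto (EuclideanSpace.single i (1 : ℝ)))
      have h3 : ‖K.orthogonalProjectionOnto (EuclideanSpace.single i (1 : ℝ))‖ = ‖P i‖ := rfl
      rw [← h3, ← h2]
      refine Finset.sum_congr rfl fun k _ => ?_
      rw [Submodule.inner_orthogonalProjectionOnto_eq_of_mem_left, Real.norm_eq_abs, sq_abs]
    simp_rw [h1]
    rw [Finset.sum_comm]
    have h4 : ∀ k, ∑ i, (inner ℝ (e k : EuclideanSpace ℝ (Fin D))
        (EuclideanSpace.single i (1 : ℝ))) ^ 2 = 1 := by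
      intro k
      have h5 := (EuclideanSpace.basisFun (Fin D) ℝ).sum_sq_norm_inner_left
        (e k : EuclideanSpace ℝ (Fin D))
      have h6 : ‖(e k : EuclideanSpace ℝ (Fin D))‖ = 1 := by
        exact e.orthonormal.1 k
      rw [h6] at h5
      simp only [EuclideanSpace.basisFun_apply, Real.norm_eq_abs, sq_abs, one_pow] at h5
      exact h5
    simp_rw [h4]
    simp only [Finset.sum_const, Finset.card_univ, Fintype.card_fin, nsmul_eq_mul, mul_one]
    exact_mod_cast hfr
  -- choose a small one
  have hex : ∃ i, ‖P i‖ ^ 2 * D ≤ n := by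
    by_contra hcon
    push Not at hcon
    have hne : (Finset.univ : Finset (Fin D)).Nonempty := ⟨⟨0, hD⟩, Finset.mem_univ _⟩
    have h1 : ∑ _i : Fin D, (n : ℝ) < ∑ i, ‖P i‖ ^ 2 * D :=
      Finset.sum_lt_sum_of_nonempty hne (fun i _ => hcon i)
    rw [← Finset.sum_mul] at h1
    simp only [Finset.sum_const, Finset.card_univ, Fintype.card_fin, nsmul_eq_mul] at h1
    have hD' : (0 : ℝ) < D := by exact_mod_cast hD
    nlinarith
  obtain ⟨i, hi⟩ := hex
  refine ⟨i, P i, ?_, hi, ?_⟩
  · intro k
    have h1 : EuclideanSpace.single i (1 : ℝ) - P i ∈ Kᗮ :=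
      Submodule.sub_starProjection_mem_orthogonal _
    rw [hK, Submodule.orthogonal_orthogonal] at h1
    have h2 : A (EuclideanSpace.single i (1 : ℝ) - P i) = 0 := h1
    have h3 := congrFun h2 k
    simp only [hA, LinearMap.pi_apply, map_sub, Pi.zero_apply] at h3
    linarith
  · have h1 : inner ℝ (EuclideanSpace.single i (1 : ℝ)) (P i) = P i i := by
      rw [EuclideanSpace.inner_single_left]
      simp
    have h2 : inner ℝ (P i) (EuclideanSpace.single i (1 : ℝ)) = ‖P i‖ ^ 2 := by
      have h3 := Submodule.re_inner_starProjection_eq_normSq K (EuclideanSpace.single i (1 : ℝ))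
      have h4 : ‖K.orthogonalProjectionOnto (EuclideanSpace.single i (1 : ℝ))‖ = ‖P i‖ := rfl
      rw [h4] at h3
      simpa using h3
    rw [← h1, real_inner_comm, h2]

end Pool.Agent.H5.Gain
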