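import Mathlib

set_option autoImplicit false

/-! The operator: the sum of a weighted `l_1` space and a weighted `l_2` space, embedded into
`l_infinity`. -/

namespace Pool.Agent.H5.Gain

open ENNReal

/-- The index set: level `j` has `4 ^ (j ^ 3)` coordinates. -/
abbrev Idx : Type := Σ j : ℕ, Fin (4 ^ (j ^ 3))

/-- The `l_1` weight: `2 ^ j` on level `j`. -/
noncomputable def aw (i : Idx) : ℝ := 2 ^ i.1

/-- The `l_2` weight: `2 ^ (j + j ^ 3 - j ^ 2)` on level `j`. -/
noncomputable def bw (i : Idx) : ℝ := 2 ^ (i.1 + (i.1 ^ 3 - i.1 ^ 2))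

lemma aw_pos (i : Idx) : 0 < aw i := by unfold aw; positivity
lemma bw_pos (i : Idx) : 0 < bw i := by unfold bw; positivity
lemma one_le_aw (i : Idx) : 1 ≤ aw i := one_le_pow₀ (by norm_num)
lemma aw_le_bw (i : Idx) : aw i ≤ bw i :=
  pow_le_pow_right₀ (by norm_num) (Nat.le_add_right _ _)
lemma one_le_bw (i : Idx) : 1 ≤ bw i := (one_le_aw i).trans (aw_le_bw i)

/-- The product of `l_1` and `l_2` with the maximum norm. -/
abbrev X0 : Type := lp (fun _ : Idx => ℝ) 1 × lp (fun _ : Idx => ℝ) 2

/-- The target space `l_infinity`. -/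
abbrev Yinf : Type := lp (fun _ : Idx => ℝ) ∞

/-- The `i`-th coordinate of the image of `(y, z)`. -/
noncomputable def co (p : X0) (i : Idx) : ℝ := p.1 i / aw i + p.2 i / bw i

lemma abs_fst_le (p : X0) (i : Idx) : |p.1 i / aw i| ≤ ‖p‖ / aw i := by
  rw [abs_div, abs_of_pos (aw_pos i)]
  have h1 : |p.1 i| ≤ ‖p.1‖ := by
    simpa using lp.norm_apply_le_norm (by norm_num) p.1 i
  have h2 : ‖p.1‖ ≤ ‖p‖ := norm_fst_le p
  have := aw_pos i
  gcongr
  exact h1.trans h2

lemma abs_snd_le (p : X0) (i : Idx) : |p.2 i / bw i| ≤ ‖p‖ / bw i := by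
  rw [abs_div, abs_of_pos (bw_pos i)]
  have h1 : |p.2 i| ≤ ‖p.2‖ := by
    simpa using lp.norm_apply_le_norm (by norm_num) p.2 i
  have h2 : ‖p.2‖ ≤ ‖p‖ := norm_snd_le p
  have := bw_pos i
  gcongr
  exact h1.trans h2

lemma abs_co_le (p : X0) (i : Idx) : |co p i| ≤ 2 * ‖p‖ / aw i := by
  unfold co
  have h1 := abs_fst_le p i
  have h2 := abs_snd_le p i
  have h3 : ‖p‖ / bw i ≤ ‖p‖ / aw i :=
    div_le_div_of_nonneg_left (norm_nonneg p) (aw_pos i) (aw_le_bw i)
  calc |p.1 i / aw i + p.2 i / bw i| ≤ |p.1 i / aw i| + |p.2 i / bw i| := abs_add_le _ _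
    _ ≤ ‖p‖ / aw i + ‖p‖ / aw i := by linarith
    _ = 2 * ‖p‖ / aw i := by ring

lemma abs_co_le' (p : X0) (i : Idx) : |co p i| ≤ 2 * ‖p‖ := by
  refine (abs_co_le p i).trans ?_
  exact div_le_self (by positivity) (one_le_aw i)

lemma memlp_co (p : X0) : Memℓp (fun i => co p i) ∞ := by
  refine memℓp_infty ⟨2 * ‖p‖, ?_⟩
  rintro _ ⟨i, rfl⟩
  exact abs_co_le' p i

/-- The operator from the product space to `l_infinity`. -/
noncomputable def S0 : X0 →L[ℝ] Yinf :=
  LinearMap.mkContinuous
    { toFun := fun p => ⟨fun i => co p i, memlp_co p⟩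
      map_add' := by
        intro p q
        ext i
        simp only [co, Prod.fst_add, Prod.snd_add, lp.coeFn_add, Pi.add_apply]
        ring
      map_smul' := by
        intro c p
        ext i
        simp only [co, Prod.smul_fst, Prod.smul_snd, lp.coeFn_smul, Pi.smul_apply, smul_eq_mul,
          RingHom.id_apply]
        ring } 2 (by
      intro p
      refine lp.norm_le_of_forall_le (by positivity) ?_
      intro i
      exact abs_co_le' p i)

lemma S0_apply (p : X0) (i : Idx) : S0 p i = co p i := rfl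

instance isClosed_ker_S0 : IsClosed (S0.ker : Set X0) := S0.isClosed_ker

/-- The Banach space `X`: the quotient of the product space by the kernel of the operator, that is
the sum of the two weighted spaces with its natural norm. -/
abbrev Xsum : Type := X0 ⧸ S0.ker

/-- The operator on the quotient. -/
noncomputable def Ssum : Xsum →L[ℝ] Yinf := S0.ker.liftQL S0 le_rfl

lemma Ssum_mk (p : X0) : Ssum (S0.ker.mkQL p) = S0 p := rfl

lemma norm_mk_le (p : X0) : ‖S0.ker.mkQL p‖ ≤ ‖p‖ := Submodule.Quotient.norm_mk_le _ p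

lemma exists_rep (f : Xsum) (hf : ‖f‖ ≤ 1) : ∃ p : X0, S0.ker.mkQL p = f ∧ ‖p‖ ≤ 2 := by
  obtain ⟨m, hm, hlt⟩ := Submodule.Quotient.norm_mk_lt f (ε := 1) one_pos
  exact ⟨m, hm, by linarith⟩

noncomputable example : NormedAddCommGroup Xsum := inferInstance
noncomputable example : NormedSpace ℝ Xsum := inferInstance
noncomputable example : CompleteSpace Xsum := inferInstance

/-- Evaluation at a coordinate, as a continuous functional on `l_infinity`. -/
noncomputable def evalInf (i : Idx) : Yinf →L[ℝ] ℝ :=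
  LinearMap.mkContinuous
    { toFun := fun y => y i
      map_add' := fun _ _ => rfl
      map_smul' := fun _ _ => rfl } 1 (by
      intro y
      rw [one_mul]
      exact lp.norm_apply_le_norm (by norm_num) y i)

lemma evalInf_apply (i : Idx) (y : Yinf) : evalInf i y = y i := rfl

end Pool.Agent.H5.Gain
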