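import Mathlib
import Pool.Agent.H5.Gain.Space
import Pool.Agent.H5.Gain.Det

set_option autoImplicit false

/-! Minimal errors and the deterministic lower bound. -/

namespace Pool.Agent.H5.Gain

open ENNReal MeasureTheory

/-- Minimal error of deterministic non-adaptive algorithms with `n` measurements. -/
noncomputable def eDet {X Y : Type} [NormedAddCommGroup X] [NormedSpace ℝ X]
    [NormedAddCommGroup Y] [NormedSpace ℝ Y] (S : X →L[ℝ] Y) (F : Set X) (n : ℕ) : ℝ≥0∞ :=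
  ⨅ (L : Fin n → (X →L[ℝ] ℝ)) (φ : (Fin n → ℝ) → Y),
    ⨆ f ∈ F, ‖S f - φ (fun i => L i f)‖ₑ

/-- Minimal error of randomized non-adaptive algorithms with `n` measurements. -/
noncomputable def eRan {X Y : Type} [NormedAddCommGroup X] [NormedSpace ℝ X]
    [NormedAddCommGroup Y] [NormedSpace ℝ Y] (S : X →L[ℝ] Y) (F : Set X) (n : ℕ) : ℝ≥0∞ :=
  ⨅ (Ω : Type) (mΩ : MeasurableSpace Ω) (P : Measure Ω) (_ : IsProbabilityMeasure P)
    (L : Ω → Fin n → (X →L[ℝ] ℝ)) (φ : Ω → (Fin n → ℝ) → Y)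
    (_ : ∀ f ∈ F, Measurable (fun ω => ‖S f - φ ω (fun i => L ω i f)‖)),
    ⨆ f ∈ F, ∫⁻ ω, ‖S f - φ ω (fun i => L ω i f)‖ₑ ∂P

lemma norm_le_error {X Y : Type} [NormedAddCommGroup X] [NormedSpace ℝ X]
    [NormedAddCommGroup Y] [NormedSpace ℝ Y] (S : X →L[ℝ] Y) (F : Set X) {n : ℕ}
    (L : Fin n → (X →L[ℝ] ℝ)) (φ : (Fin n → ℝ) → Y) (x : X) (hx : x ∈ F) (hx' : -x ∈ F)
    (hL : ∀ k, L k x = 0) : ‖S x‖ₑ ≤ ⨆ f ∈ F, ‖S f - φ (fun i => L i f)‖ₑ := by
  set E := ⨆ f ∈ F, ‖S f - φ (fun i => L i f)‖ₑ with hE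
  have h1 : ‖S x - φ 0‖ₑ ≤ E := by
    have h := le_iSup₂ (f := fun f (_ : f ∈ F) => ‖S f - φ (fun i => L i f)‖ₑ) x hx
    have h0 : (fun i => L i x) = (0 : Fin n → ℝ) := by
      funext i; exact hL i
    simpa only [h0] using h
  have h2 : ‖S (-x) - φ 0‖ₑ ≤ E := by
    have h := le_iSup₂ (f := fun f (_ : f ∈ F) => ‖S f - φ (fun i => L i f)‖ₑ) (-x) hx'
    have h0 : (fun i => L i (-x)) = (0 : Fin n → ℝ) := by
      funext i; rw [map_neg, hL i, neg_zero]; rfl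
    simpa only [h0] using h
  have h3 : (2 : ℝ) • S x = (S x - φ 0) - (S (-x) - φ 0) := by
    rw [map_neg, two_smul]; abel
  have h4 : 2 * ‖S x‖ₑ ≤ 2 * E := by
    calc 2 * ‖S x‖ₑ = ‖(2 : ℝ) • S x‖ₑ := by
          rw [enorm_smul]
          congr 1
          simp [Real.enorm_eq_ofReal_abs]
      _ = ‖(S x - φ 0) - (S (-x) - φ 0)‖ₑ := by rw [h3]
      _ ≤ ‖S x - φ 0‖ₑ + ‖S (-x) - φ 0‖ₑ := enorm_sub_le
      _ ≤ E + E := add_le_add h1 h2
      _ = 2 * E := by rw [two_mul]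
  exact (ENNReal.mul_le_mul_iff_right (by norm_num) (by norm_num)).mp h4

/-- Unit vectors of `l_2`. -/
noncomputable def e2 (i : Idx) : lp (fun _ : Idx => ℝ) 2 := lp.single 2 i (1 : ℝ)

/-- Unit vectors of `l_1`. -/
noncomputable def e1 (i : Idx) : lp (fun _ : Idx => ℝ) 1 := lp.single 1 i (1 : ℝ)

lemma e2_same (i : Idx) : e2 i i = 1 := lp.single_apply_self _ _ _
lemma e1_same (i : Idx) : e1 i i = 1 := lp.single_apply_self _ _ _
lemma e2_ne {i k : Idx} (h : k ≠ i) : e2 i k = 0 := lp.single_apply_ne _ _ _ h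
lemma e1_ne {i k : Idx} (h : k ≠ i) : e1 i k = 0 := lp.single_apply_ne _ _ _ h
lemma norm_e1 (i : Idx) : ‖e1 i‖ = 1 := by
  unfold e1
  rw [lp.norm_single (by norm_num)]
  simp

/-- The embedding of the coordinates of level `j` into `l_2`. -/
noncomputable def emb (j : ℕ) :
    EuclideanSpace ℝ (Fin (4 ^ (j ^ 3))) →ₗ[ℝ] lp (fun _ : Idx => ℝ) 2 where
  toFun v := ∑ i, (v i) • e2 ⟨j, i⟩
  map_add' v w := by
    simp only [PiLp.add_apply, add_smul, Finset.sum_add_distrib]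
  map_smul' c v := by
    simp only [PiLp.smul_apply, smul_eq_mul, mul_smul, Finset.smul_sum, RingHom.id_apply]

lemma emb_apply_coe (j : ℕ) (v : EuclideanSpace ℝ (Fin (4 ^ (j ^ 3)))) :
    emb j v = ∑ i, (v i) • e2 ⟨j, i⟩ := rfl

lemma orthonormal_single (j : ℕ) :
    Orthonormal ℝ (fun i : Fin (4 ^ (j ^ 3)) => e2 ⟨j, i⟩) := by
  rw [orthonormal_iff_ite]
  intro i k
  have h0 : inner ℝ (e2 ⟨j, i⟩) (e2 ⟨j, k⟩) = inner ℝ (1 : ℝ) (e2 ⟨j, k⟩ ⟨j, i⟩) :=
    lp.inner_single_left _ _ _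
  rw [h0]
  by_cases h : i = k
  · subst h
    rw [e2_same]
    simp
  · have hne : (⟨j, i⟩ : Idx) ≠ ⟨j, k⟩ := by
      intro h2
      apply h
      simpa using h2
    rw [e2_ne hne]
    simp [h]

lemma norm_emb (j : ℕ) (v : EuclideanSpace ℝ (Fin (4 ^ (j ^ 3)))) : ‖emb j v‖ ^ 2 = ‖v‖ ^ 2 := by
  have h1 := (orthonormal_single j).inner_sum (fun i => v i) (fun i => v i) Finset.univ
  rw [← emb_apply_coe, real_inner_self_eq_norm_sq] at h1
  rw [h1, EuclideanSpace.norm_sq_eq]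
  refine Finset.sum_congr rfl fun i _ => ?_
  simp [pow_two]

lemma emb_coord (j : ℕ) (v : EuclideanSpace ℝ (Fin (4 ^ (j ^ 3)))) (i : Fin (4 ^ (j ^ 3))) :
    emb j v (⟨j, i⟩ : Idx) = v i := by
  rw [emb_apply_coe, lp.coeFn_sum, Finset.sum_apply, Finset.sum_eq_single i]
  · rw [lp.coeFn_smul, Pi.smul_apply, e2_same]
    simp
  · intro k _ hki
    have hne : (⟨j, i⟩ : Idx) ≠ ⟨j, k⟩ := by
      intro h2
      apply hki
      symm
      simpa using h2
    rw [lp.coeFn_smul, Pi.smul_apply, e2_ne hne]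
    simp
  · intro h
    exact absurd (Finset.mem_univ i) h

/-- The weight ratio on level `j`. -/
lemma bw_div_aw (j : ℕ) (i : Fin (4 ^ (j ^ 3))) :
    bw ⟨j, i⟩ / aw ⟨j, i⟩ = 2 ^ (j ^ 3 - j ^ 2) := by
  unfold bw aw
  simp only
  rw [pow_add]
  field_simp

/-- The deterministic lower bound. -/
theorem eDet_ge (j n : ℕ) (hn : 4 * n ≤ 4 ^ (j ^ 2)) :
    ENNReal.ofReal (3 / 4 / 2 ^ j) ≤ eDet Ssum (Metric.closedBall 0 1) n := by
  unfold eDet
  refine le_iInf fun L => le_iInf fun φ => ?_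
  -- pull the functionals back to the Euclidean space of level `j`
  set l : Fin n → (EuclideanSpace ℝ (Fin (4 ^ (j ^ 3))) →ₗ[ℝ] ℝ) := fun k =>
    (L k).toLinearMap ∘ₗ (S0.ker.mkQL.toLinearMap) ∘ₗ
      (LinearMap.inr ℝ (lp (fun _ : Idx => ℝ) 1) (lp (fun _ : Idx => ℝ) 2)) ∘ₗ (emb j) with hl
  have hlv : ∀ k v, l k v = L k (S0.ker.mkQL ((0, emb j v) : X0)) := fun k v => rfl
  obtain ⟨i, p, hp1, hp2, hp3⟩ := exists_small_projection (4 ^ (j ^ 3)) n (by positivity) l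
  set c : ℝ := 2 ^ (j ^ 3 - j ^ 2) with hc
  have hc0 : 0 < c := by positivity
  have hsub : j ^ 2 ≤ j ^ 3 := by
    rcases Nat.eq_zero_or_pos j with h | h
    · subst h; norm_num
    · exact Nat.pow_le_pow_right h (by norm_num)
  -- `c ^ 2 * ‖p‖ ^ 2 ≤ 1 / 4`
  have hcp : (c * ‖p‖) ^ 2 ≤ 1 / 4 := by
    have h1 : c ^ 2 * 4 ^ (j ^ 2) = (4 : ℝ) ^ (j ^ 3) := by
      have h0 : c ^ 2 = (4 : ℝ) ^ (j ^ 3 - j ^ 2) := by
        rw [hc, ← pow_mul, mul_comm, pow_mul]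
        norm_num
      rw [h0, ← pow_add]
      congr 1
      omega
    have h2 : ‖p‖ ^ 2 * (c ^ 2 * 4 ^ (j ^ 2)) ≤ (n : ℝ) := by
      rw [h1]
      exact_mod_cast hp2
    have h3 : (4 : ℝ) * n ≤ 4 ^ (j ^ 2) := by exact_mod_cast hn
    have h4 : (0 : ℝ) < 4 ^ (j ^ 2) := by positivity
    have h5 : (c * ‖p‖) ^ 2 * 4 ^ (j ^ 2) ≤ 1 / 4 * 4 ^ (j ^ 2) := by nlinarith
    exact le_of_mul_le_mul_right h5 h4
  have hc1 : 1 ≤ c := one_le_pow₀ (by norm_num)
  have hp4 : ‖p‖ ^ 2 ≤ 1 / 4 := by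
    have h1 : ‖p‖ ^ 2 ≤ (c * ‖p‖) ^ 2 := by
      rw [mul_pow]
      have := one_le_pow₀ (n := 2) hc1
      nlinarith [sq_nonneg ‖p‖]
    exact h1.trans hcp
  -- the fooling element
  set q : X0 := (e1 ⟨j, i⟩, -(c • emb j p)) with hq
  have hqn : ‖q‖ ≤ 1 := by
    rw [Prod.norm_def]
    refine max_le ?_ ?_
    · exact (norm_e1 _).le
    · simp only [hq, norm_neg, norm_smul, Real.norm_eq_abs, abs_of_pos hc0]
      have h1 : ‖emb j p‖ = ‖p‖ := by
        have h2 := norm_emb j p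
        exact (sq_eq_sq₀ (norm_nonneg _) (norm_nonneg _)).mp h2
      rw [h1]
      nlinarith [norm_nonneg p]
  have hqX : S0.ker.mkQL q ∈ Metric.closedBall (0 : Xsum) 1 := by
    rw [mem_closedBall_zero_iff]
    exact (norm_mk_le q).trans hqn
  have hqX' : -S0.ker.mkQL q ∈ Metric.closedBall (0 : Xsum) 1 := by
    rw [mem_closedBall_zero_iff, norm_neg]
    exact (norm_mk_le q).trans hqn
  -- its other representative
  have hrep : S0.ker.mkQL q
      = S0.ker.mkQL ((0, emb j (c • (EuclideanSpace.single i (1 : ℝ) - p))) : X0) := by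
    have h1 : q - ((0, emb j (c • (EuclideanSpace.single i (1 : ℝ) - p))) : X0) ∈ S0.ker := by
      change S0 (q - ((0, emb j (c • (EuclideanSpace.single i (1 : ℝ) - p))) : X0)) = 0
      have h2 : emb j (EuclideanSpace.single i (1 : ℝ)) = e2 ⟨j, i⟩ := by
        rw [emb_apply_coe, Finset.sum_eq_single i]
        · simp
        · intro k _ hk
          simp [hk]
        · intro h
          exact absurd (Finset.mem_univ i) h
      have h3 : q - ((0, emb j (c • (EuclideanSpace.single i (1 : ℝ) - p))) : X0)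
          = ((e1 ⟨j, i⟩, -(c • e2 ⟨j, i⟩)) : X0) := by
        rw [hq, map_smul, map_sub, h2, smul_sub]
        ext1
        · simp
        · simp only [Prod.snd_sub]
          abel
      rw [h3]
      ext k
      rw [S0_apply]
      unfold co
      simp only [lp.coeFn_neg, lp.coeFn_smul, Pi.neg_apply, Pi.smul_apply, smul_eq_mul,
        lp.coeFn_zero, Pi.zero_apply]
      by_cases hk : k = ⟨j, i⟩
      · subst hk
        rw [e1_same, e2_same, mul_one, hc, ← bw_div_aw j i]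
        have := (bw_pos ⟨j, i⟩).ne'
        have := (aw_pos ⟨j, i⟩).ne'
        field_simp
        ring
      · rw [e1_ne hk, e2_ne hk]
        simp
    have h4 := (Submodule.Quotient.eq S0.ker).mpr h1
    exact h4
  have hL : ∀ k, L k (S0.ker.mkQL q) = 0 := by
    intro k
    rw [hrep, ← hlv, map_smul, map_sub, hp1 k, sub_self, smul_zero]
  refine le_trans ?_ (norm_le_error Ssum (Metric.closedBall 0 1) L φ _ hqX hqX' hL)
  -- the norm of the image
  rw [Ssum_mk]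
  have h1 : S0 q ⟨j, i⟩ = (1 - p i) / 2 ^ j := by
    rw [S0_apply]
    unfold co
    simp only [hq, lp.coeFn_neg, lp.coeFn_smul, Pi.neg_apply, Pi.smul_apply, smul_eq_mul]
    rw [e1_same, emb_coord]
    have hb : bw ⟨j, i⟩ = c * aw ⟨j, i⟩ := by
      rw [hc, ← bw_div_aw j i, div_mul_cancel₀ _ (aw_pos _).ne']
    rw [hb]
    have ha : aw ⟨j, i⟩ = 2 ^ j := rfl
    rw [ha]
    have h2j : (0 : ℝ) < 2 ^ j := by positivity
    field_simp
    ring
  have h2 : 3 / 4 / 2 ^ j ≤ ‖S0 q‖ := by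
    have h3 : ‖S0 q ⟨j, i⟩‖ ≤ ‖S0 q‖ := lp.norm_apply_le_norm (by norm_num) _ _
    refine le_trans ?_ h3
    rw [h1, Real.norm_eq_abs]
    refine le_trans ?_ (le_abs_self _)
    have h2j : (0 : ℝ) < 2 ^ j := by positivity
    gcongr
    rw [hp3]
    linarith
  rw [← ofReal_norm]
  exact ENNReal.ofReal_le_ofReal h2

end Pool.Agent.H5.Gain
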