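import Mathlib
import Pool.Agent.H5.Gain.Lower

set_option autoImplicit false

/-! Randomized algorithms with finitely many random choices, and with an arbitrary finite index
type for the measurements. -/

namespace Pool.Agent.H5.Gain

open ENNReal MeasureTheory

lemma lintegral_uniform {Ω : Type} [Fintype Ω] [Nonempty Ω] (g : Ω → ℝ≥0∞) :
    @lintegral Ω ⊤ (((Fintype.card Ω : ℝ≥0∞)⁻¹) • @Measure.count Ω ⊤) g
      = (Fintype.card Ω : ℝ≥0∞)⁻¹ * ∑ ω, g ω := by
  let _ : MeasurableSpace Ω := ⊤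
  rw [lintegral_smul_measure, lintegral_count, tsum_fintype, smul_eq_mul]

lemma isProb_uniform {Ω : Type} [Fintype Ω] [Nonempty Ω] :
    @IsProbabilityMeasure Ω ⊤ (((Fintype.card Ω : ℝ≥0∞)⁻¹) • @Measure.count Ω ⊤) := by
  let _ : MeasurableSpace Ω := ⊤
  constructor
  rw [Measure.smul_apply, Measure.count_apply MeasurableSet.univ, smul_eq_mul]
  rw [Set.encard_univ, ENat.card_eq_coe_fintype_card]
  refine ENNReal.inv_mul_cancel ?_ ?_
  · simp
  · simp

/-- Minimal error of randomized non-adaptive algorithms with `n` measurements and finitely many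
equally likely random choices: the algorithm chooses `w` uniformly from a finite set, measures
the `n` functionals `L w` and applies the map `φ w`. -/
noncomputable def eRanFin {X Y : Type} [NormedAddCommGroup X] [NormedSpace ℝ X]
    [NormedAddCommGroup Y] [NormedSpace ℝ Y] (S : X →L[ℝ] Y) (F : Set X) (n : ℕ) : ℝ≥0∞ :=
  ⨅ (K : ℕ) (_ : 0 < K) (L : Fin K → Fin n → (X →L[ℝ] ℝ)) (φ : Fin K → (Fin n → ℝ) → Y),
    ⨆ f ∈ F, (K : ℝ≥0∞)⁻¹ * ∑ w, ‖S f - φ w (fun i => L w i f)‖ₑ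

theorem eRan_le_eRanFin {X Y : Type} [NormedAddCommGroup X] [NormedSpace ℝ X]
    [NormedAddCommGroup Y] [NormedSpace ℝ Y] (S : X →L[ℝ] Y) (F : Set X) (n : ℕ) :
    eRan S F n ≤ eRanFin S F n := by
  unfold eRanFin
  refine le_iInf fun K => le_iInf fun hK => le_iInf fun L => le_iInf fun φ => ?_
  have : Nonempty (Fin K) := ⟨⟨0, hK⟩⟩
  unfold eRan
  refine (iInf_le _ (Fin K)).trans ?_
  refine (iInf_le _ (⊤ : MeasurableSpace (Fin K))).trans ?_
  refine (iInf_le _ (((Fintype.card (Fin K) : ℝ≥0∞)⁻¹) • @Measure.count (Fin K) ⊤)).trans ?_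
  refine (iInf_le _ isProb_uniform).trans ?_
  refine (iInf_le _ L).trans ?_
  refine (iInf_le _ φ).trans ?_
  refine (iInf_le _ (fun f _ => measurable_from_top)).trans ?_
  refine iSup₂_mono fun f hf => ?_
  rw [lintegral_uniform, Fintype.card_fin]

theorem eRanFin_le_of_finite {X Y : Type} [NormedAddCommGroup X] [NormedSpace ℝ X]
    [NormedAddCommGroup Y] [NormedSpace ℝ Y] (S : X →L[ℝ] Y) (F : Set X) (n : ℕ)
    {K Ω : Type} [Fintype K] [Fintype Ω] [Nonempty Ω] (hK : Fintype.card K ≤ n)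
    (L : Ω → K → (X →L[ℝ] ℝ)) (φ : Ω → (K → ℝ) → Y) (B : ℝ)
    (hB : ∀ f ∈ F, ∑ ω, ‖S f - φ ω (fun k => L ω k f)‖ ≤ Fintype.card Ω * B) :
    eRanFin S F n ≤ ENNReal.ofReal B := by
  classical
  obtain ⟨e⟩ : Nonempty (K ↪ Fin n) :=
    Function.Embedding.nonempty_of_card_le (by simpa using hK)
  set N : ℕ := Fintype.card Ω with hN
  have hN0 : 0 < N := Fintype.card_pos
  set σ : Fin N ≃ Ω := (Fintype.equivFin Ω).symm with hσ
  unfold eRanFin
  refine (iInf_le _ N).trans ?_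
  refine (iInf_le _ hN0).trans ?_
  refine (iInf_le _ (fun w => Function.extend e (L (σ w)) 0)).trans ?_
  refine (iInf_le _ (fun w v => φ (σ w) (fun k => v (e k)))).trans ?_
  refine iSup₂_le fun f hf => ?_
  have h1 : ∀ ω, (fun k => (fun i => (Function.extend (⇑e) (L ω) 0 i) f) (e k))
      = fun k => L ω k f := by
    intro ω
    funext k
    simp only [e.injective.extend_apply]
  simp only [h1]
  have h2 : ∑ w : Fin N, ‖S f - φ (σ w) (fun k => L (σ w) k f)‖ₑ
      = ENNReal.ofReal (∑ ω, ‖S f - φ ω (fun k => L ω k f)‖) := by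
    rw [ENNReal.ofReal_sum_of_nonneg (fun _ _ => norm_nonneg _)]
    rw [← Equiv.sum_comp σ (fun ω => ENNReal.ofReal ‖S f - φ ω (fun k => L ω k f)‖)]
    refine Finset.sum_congr rfl fun w _ => ?_
    rw [ofReal_norm]
  rw [h2]
  have hc : (0 : ℝ) < N := by exact_mod_cast hN0
  have hc' : (N : ℝ≥0∞) ≠ 0 := by exact_mod_cast hN0.ne'
  calc (N : ℝ≥0∞)⁻¹ * ENNReal.ofReal (∑ ω, ‖S f - φ ω (fun k => L ω k f)‖)
      ≤ (N : ℝ≥0∞)⁻¹ * ENNReal.ofReal (N * B) := by
        gcongr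
        exact hB f hf
    _ = ENNReal.ofReal B := by
        rw [ENNReal.ofReal_mul hc.le, ← mul_assoc, ENNReal.ofReal_natCast,
          ENNReal.inv_mul_cancel hc' (ENNReal.natCast_ne_top N), one_mul]

end Pool.Agent.H5.Gain
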