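import Mathlib

set_option autoImplicit false

/-! Random hashing and random signs: the elementary counting behind the count sketch. -/

namespace Pool.Agent.H5.Gain

open Finset

variable {κ : Type} [Fintype κ] [DecidableEq κ]

/-- A sign as a real number. -/
noncomputable def sg (u : ℤˣ) : ℝ := ((u : ℤ) : ℝ)

lemma sg_mul_self (u : ℤˣ) : sg u * sg u = 1 := by
  rcases Int.units_eq_one_or u with h | h <;> simp [sg, h]

lemma sg_sq (u : ℤˣ) : sg u ^ 2 = 1 := by
  rw [pow_two, sg_mul_self]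

lemma sg_mul (u v : ℤˣ) : sg (u * v) = sg u * sg v := by
  simp [sg]

lemma sg_neg_one : sg (-1) = -1 := by simp [sg]

lemma sg_one : sg 1 = 1 := by simp [sg]

/-- Two different random signs are uncorrelated. -/
lemma sum_sign_mul {j k : κ} (hjk : j ≠ k) :
    ∑ s : κ → ℤˣ, sg (s j) * sg (s k) = 0 := by
  have h : ∑ s : κ → ℤˣ, sg (s j) * sg (s k)
      = ∑ s : κ → ℤˣ, - (sg (s j) * sg (s k)) := by
    refine Fintype.sum_equiv (Equiv.mulLeft (Pi.mulSingle j (-1 : ℤˣ))) _ _ ?_
    intro s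
    simp only [Equiv.coe_mulLeft, Pi.mul_apply, Pi.mulSingle_eq_same,
      Pi.mulSingle_eq_of_ne hjk.symm, sg_mul, sg_neg_one, sg_one]
    ring
  rw [Finset.sum_neg_distrib] at h
  linarith

/-- Two different points collide under a random hash function with probability one over the
number of buckets. -/
lemma card_coll (b : ℕ) [NeZero b] {j i : κ} (hji : j ≠ i) :
    (∑ h : κ → ZMod b, if h j = h i then (1 : ℝ) else 0) * b
      = (Fintype.card (κ → ZMod b) : ℝ) := by
  have key : ∀ c : ZMod b, (∑ h : κ → ZMod b, if h j - h i = c then (1 : ℝ) else 0)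
      = ∑ h : κ → ZMod b, if h j = h i then (1 : ℝ) else 0 := by
    intro c
    symm
    refine Fintype.sum_equiv (Equiv.addLeft (Pi.single j c)) _ _ ?_
    intro h
    simp only [Equiv.coe_addLeft, Pi.add_apply, Pi.single_eq_same,
      Pi.single_eq_of_ne hji.symm, zero_add]
    congr 1
    simp only [eq_iff_iff]
    constructor
    · intro hh
      rw [hh]
      ring
    · intro hh
      have : h j - h i = 0 := by
        have h2 : c + h j - h i - c = 0 := by rw [hh]; ring
        calc h j - h i = c + h j - h i - c := by ring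
          _ = 0 := h2
      exact sub_eq_zero.mp this
  have h1 : ∑ c : ZMod b, ∑ h : κ → ZMod b, (if h j - h i = c then (1 : ℝ) else 0)
      = (Fintype.card (κ → ZMod b) : ℝ) := by
    rw [Finset.sum_comm]
    simp [Finset.sum_ite_eq]
  rw [← h1, Finset.sum_congr rfl (fun c _ => key c)]
  simp [ZMod.card, mul_comm]

/-- Second moment of a random signed sum. -/
lemma sum_sq_sign (A : Finset κ) (x : κ → ℝ) :
    ∑ s : κ → ℤˣ, (∑ j ∈ A, sg (s j) * x j) ^ 2
      = (Fintype.card (κ → ℤˣ) : ℝ) * ∑ j ∈ A, x j ^ 2 := by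
  have h1 : ∀ s : κ → ℤˣ, (∑ j ∈ A, sg (s j) * x j) ^ 2
      = ∑ j ∈ A, ∑ k ∈ A, (sg (s j) * sg (s k)) * (x j * x k) := by
    intro s
    rw [pow_two, Finset.sum_mul_sum]
    refine Finset.sum_congr rfl fun j _ => Finset.sum_congr rfl fun k _ => ?_
    ring
  simp_rw [h1]
  rw [Finset.sum_comm, Finset.mul_sum]
  refine Finset.sum_congr rfl fun j hj => ?_
  rw [Finset.sum_comm]
  rw [Finset.sum_eq_single j]
  · simp_rw [sg_mul_self]
    simp [pow_two]
  · intro k _ hkj
    rw [← Finset.sum_mul, sum_sign_mul (Ne.symm hkj), zero_mul]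
  · intro h
    exact absurd hj h

/-- Second moment of the noise in one bucket. -/
lemma sum_noise_sq (b : ℕ) [NeZero b] (i : κ) (A : Finset κ) (hi : i ∉ A) (x : κ → ℝ) :
    (∑ w : (κ → ZMod b) × (κ → ℤˣ),
      (sg (w.2 i) * ∑ j ∈ A with w.1 j = w.1 i, sg (w.2 j) * x j) ^ 2) * b
      = (Fintype.card ((κ → ZMod b) × (κ → ℤˣ)) : ℝ) * ∑ j ∈ A, x j ^ 2 := by
  have h1 : ∀ h : κ → ZMod b, (∑ s : κ → ℤˣ,
      (sg (s i) * ∑ j ∈ A with h j = h i, sg (s j) * x j) ^ 2)
      = (Fintype.card (κ → ℤˣ) : ℝ) * ∑ j ∈ A, (if h j = h i then (1 : ℝ) else 0) * x j ^ 2 := by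
    intro h
    simp_rw [mul_pow, sg_sq, one_mul]
    rw [sum_sq_sign, Finset.sum_filter]
    simp_rw [ite_mul, one_mul, zero_mul]
  rw [Fintype.sum_prod_type]
  simp only [h1]
  rw [← Finset.mul_sum, Finset.sum_comm]
  simp_rw [← Finset.sum_mul]
  rw [mul_assoc, Finset.sum_mul, Fintype.card_prod, Nat.cast_mul, Finset.mul_sum,
    Finset.mul_sum]
  refine Finset.sum_congr rfl fun j hj => ?_
  have hji : j ≠ i := fun h => hi (h ▸ hj)
  have := card_coll b hji
  rw [← this]
  ring

/-- The estimate of coordinate `i` in one repetition of the count sketch: the signed content of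
the bucket of `i`. -/
noncomputable def est (b : ℕ) (x : κ → ℝ) (w : (κ → ZMod b) × (κ → ℤˣ)) (i : κ) : ℝ :=
  sg (w.2 i) * ∑ j with w.1 j = w.1 i, sg (w.2 j) * x j

/-- One repetition fails at a given coordinate with probability at most one sixteenth. -/
theorem single_rep (b : ℕ) [NeZero b] (x y z : κ → ℝ) (Y1 Z2 τ δ : ℝ)
    (hx : ∀ i, x i = y i + z i) (hy : ∑ i, |y i| ≤ Y1) (hz : ∑ i, z i ^ 2 ≤ Z2)
    (hτ0 : 0 < τ) (hδ0 : 0 < δ)
    (hτ : 32 * Y1 ≤ τ * b) (hδ : 64 * (τ * Y1 + Z2) ≤ δ ^ 2 * b) (i : κ) :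
    16 * ((univ.filter (fun w : (κ → ZMod b) × (κ → ℤˣ) => δ < |est b x w i - x i|)).card : ℝ)
      ≤ (Fintype.card ((κ → ZMod b) × (κ → ℤˣ)) : ℝ) := by
  classical
  set N : ℝ := (Fintype.card ((κ → ZMod b) × (κ → ℤˣ)) : ℝ) with hN
  have hb0 : (0 : ℝ) < b := by
    have := NeZero.pos b
    exact_mod_cast this
  have hN0 : 0 ≤ N := by positivity
  -- heavy coordinates
  set H : Finset κ := univ.filter (fun j => j ≠ i ∧ τ < |y j|) with hH
  set A : Finset κ := univ.filter (fun j => j ≠ i ∧ |y j| ≤ τ) with hA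
  have hiA : i ∉ A := by simp [hA]
  have hHcard : (H.card : ℝ) * τ ≤ Y1 := by
    calc (H.card : ℝ) * τ = ∑ j ∈ H, τ := by simp
      _ ≤ ∑ j ∈ H, |y j| := by
        refine Finset.sum_le_sum fun j hj => ?_
        simp only [hH, mem_filter] at hj
        exact hj.2.2.le
      _ ≤ ∑ j, |y j| := Finset.sum_le_sum_of_subset_of_nonneg (Finset.subset_univ _)
        (fun _ _ _ => abs_nonneg _)
      _ ≤ Y1 := hy
  -- noise
  set U : (κ → ZMod b) × (κ → ℤˣ) → ℝ := fun w =>
    sg (w.2 i) * ∑ j ∈ A with w.1 j = w.1 i, sg (w.2 j) * x j with hU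
  have hUsum : (∑ w, U w ^ 2) * b = N * ∑ j ∈ A, x j ^ 2 := sum_noise_sq b i A hiA x
  have hAx : ∑ j ∈ A, x j ^ 2 ≤ 2 * (τ * Y1 + Z2) := by
    have h1 : ∀ j ∈ A, x j ^ 2 ≤ 2 * (τ * |y j|) + 2 * z j ^ 2 := by
      intro j hj
      simp only [hA, mem_filter] at hj
      rw [hx j]
      have h2 : y j ^ 2 ≤ τ * |y j| := by
        rw [← sq_abs, pow_two]
        exact mul_le_mul_of_nonneg_right hj.2.2 (abs_nonneg _)
      nlinarith [sq_nonneg (y j - z j)]
    calc ∑ j ∈ A, x j ^ 2 ≤ ∑ j ∈ A, (2 * (τ * |y j|) + 2 * z j ^ 2) := Finset.sum_le_sum h1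
      _ ≤ ∑ j, (2 * (τ * |y j|) + 2 * z j ^ 2) :=
        Finset.sum_le_sum_of_subset_of_nonneg (Finset.subset_univ _)
          (fun _ _ _ => by positivity)
      _ = 2 * (τ * ∑ j, |y j| + ∑ j, z j ^ 2) := by
        rw [Finset.sum_add_distrib, ← Finset.mul_sum, ← Finset.mul_sum, ← Finset.mul_sum]
        ring
      _ ≤ 2 * (τ * Y1 + Z2) := by
        have := mul_le_mul_of_nonneg_left hy hτ0.le
        linarith
  -- the bad event is covered by collisions and large noise
  set Big : Finset ((κ → ZMod b) × (κ → ℤˣ)) := univ.filter (fun w => δ ^ 2 < U w ^ 2) with hBig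
  have hcover : univ.filter (fun w : (κ → ZMod b) × (κ → ℤˣ) => δ < |est b x w i - x i|)
      ⊆ (H.biUnion fun j => univ.filter (fun w => w.1 j = w.1 i)) ∪ Big := by
    intro w hw
    simp only [mem_filter, mem_univ, true_and] at hw
    simp only [mem_union, mem_biUnion, mem_filter, mem_univ, true_and]
    by_cases hc : ∃ j ∈ H, w.1 j = w.1 i
    · exact Or.inl hc
    · right
      push Not at hc
      have hest : est b x w i - x i = U w := by
        have hs : (univ.filter (fun j => w.1 j = w.1 i))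
            = insert i (A.filter (fun j => w.1 j = w.1 i)) := by
          ext j
          simp only [mem_filter, mem_univ, true_and, mem_insert, hA]
          constructor
          · intro hj
            by_cases hji : j = i
            · exact Or.inl hji
            · right
              refine ⟨⟨hji, ?_⟩, hj⟩
              by_contra hlt
              push Not at hlt
              exact hc j (by simp [hH, hji, hlt]) hj
          · rintro (h | h)
            · rw [h]
            · exact h.2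
        unfold est
        rw [hs, Finset.sum_insert (by simp [hA]), mul_add, ← mul_assoc, sg_mul_self]
        simp only [hU]
        ring
      rw [hest] at hw
      simp only [hBig, mem_filter, mem_univ, true_and]
      rw [← sq_abs (U w)]
      exact pow_lt_pow_left₀ hw hδ0.le (by norm_num)
  have hcoll : ∀ j ∈ H, ((univ.filter
      (fun w : (κ → ZMod b) × (κ → ℤˣ) => w.1 j = w.1 i)).card : ℝ) * b = N := by
    intro j hj
    have hji : j ≠ i := by
      simp only [hH, mem_filter] at hj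
      exact hj.2.1
    have h1 : ((univ.filter
      (fun w : (κ → ZMod b) × (κ → ℤˣ) => w.1 j = w.1 i)).card : ℝ)
        = (∑ h : κ → ZMod b, if h j = h i then (1 : ℝ) else 0)
          * (Fintype.card (κ → ℤˣ) : ℝ) := by
      rw [Finset.card_filter, Nat.cast_sum, Fintype.sum_prod_type, Finset.sum_mul]
      refine Finset.sum_congr rfl fun h _ => ?_
      by_cases hh : h j = h i <;> simp [hh]
    rw [h1, mul_right_comm, card_coll b hji, hN, Fintype.card_prod, Nat.cast_mul]
  have hcard : ((univ.filter (fun w : (κ → ZMod b) × (κ → ℤˣ) => δ < |est b x w i - x i|)).card : ℝ)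
      ≤ (∑ j ∈ H, ((univ.filter
      (fun w : (κ → ZMod b) × (κ → ℤˣ) => w.1 j = w.1 i)).card : ℝ)) + Big.card := by
    have h1 := Finset.card_le_card hcover
    have h2 := Finset.card_union_le
      (H.biUnion fun j => univ.filter (fun w : (κ → ZMod b) × (κ → ℤˣ) => w.1 j = w.1 i)) Big
    have h3 : (H.biUnion fun j =>
        univ.filter (fun w : (κ → ZMod b) × (κ → ℤˣ) => w.1 j = w.1 i)).card
        ≤ ∑ j ∈ H, (univ.filter
      (fun w : (κ → ZMod b) × (κ → ℤˣ) => w.1 j = w.1 i)).card := Finset.card_biUnion_le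
    have h4 := (h1.trans h2).trans (Nat.add_le_add_right h3 _)
    exact_mod_cast h4
  have hfirst : (∑ j ∈ H, ((univ.filter
      (fun w : (κ → ZMod b) × (κ → ℤˣ) => w.1 j = w.1 i)).card : ℝ)) * 32 ≤ N := by
    have h1 : (∑ j ∈ H, ((univ.filter
      (fun w : (κ → ZMod b) × (κ → ℤˣ) => w.1 j = w.1 i)).card : ℝ)) * b = H.card * N := by
      rw [Finset.sum_mul, Finset.sum_congr rfl hcoll]
      simp
    have h2 : (H.card : ℝ) * 32 ≤ b := by
      have h3 : (H.card : ℝ) * τ * 32 ≤ τ * b := by nlinarith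
      have h4 : τ * ((H.card : ℝ) * 32) ≤ τ * b := by nlinarith
      exact le_of_mul_le_mul_left h4 hτ0
    have h5 : ((∑ j ∈ H, ((univ.filter
      (fun w : (κ → ZMod b) × (κ → ℤˣ) => w.1 j = w.1 i)).card : ℝ)) * 32) * b ≤ N * b := by
      rw [mul_right_comm, h1]
      nlinarith [mul_le_mul_of_nonneg_right h2 hN0]
    exact le_of_mul_le_mul_right h5 hb0
  have hsecond : (Big.card : ℝ) * 32 ≤ N := by
    have h1 : (Big.card : ℝ) * δ ^ 2 ≤ ∑ w, U w ^ 2 := by
      calc (Big.card : ℝ) * δ ^ 2 = ∑ w ∈ Big, δ ^ 2 := by simp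
        _ ≤ ∑ w ∈ Big, U w ^ 2 := by
          refine Finset.sum_le_sum fun w hw => ?_
          simp only [hBig, mem_filter] at hw
          exact hw.2.le
        _ ≤ ∑ w, U w ^ 2 := Finset.sum_le_sum_of_subset_of_nonneg (Finset.subset_univ _)
          (fun _ _ _ => sq_nonneg _)
    have h2 : ((Big.card : ℝ) * 32) * (δ ^ 2 * b) ≤ N * (δ ^ 2 * b) := by
      calc ((Big.card : ℝ) * 32) * (δ ^ 2 * b) = 32 * (((Big.card : ℝ) * δ ^ 2) * b) := by ring
        _ ≤ 32 * ((∑ w, U w ^ 2) * b) := by gcongr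
        _ = 32 * (N * ∑ j ∈ A, x j ^ 2) := by rw [hUsum]
        _ ≤ 32 * (N * (2 * (τ * Y1 + Z2))) := by gcongr
        _ = N * (64 * (τ * Y1 + Z2)) := by ring
        _ ≤ N * (δ ^ 2 * b) := by gcongr
    exact le_of_mul_le_mul_right h2 (by positivity)
  linarith

end Pool.Agent.H5.Gain
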