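import Mathlib
import Pool.Agent.H5.Gain.Comb

set_option autoImplicit false

/-! Majority decoding of independent repetitions. -/

namespace Pool.Agent.H5.Gain

open Finset

/-- If an event has probability at most one sixteenth, then it happens in at least half of `R`
independent repetitions with probability at most `2 ^ (-R)`. -/
theorem majority_card {Ω : Type} [Fintype Ω] [DecidableEq Ω] (B : Finset Ω)
    (hB : 16 * (B.card : ℝ) ≤ (Fintype.card Ω : ℝ)) (R : ℕ) :
    ((univ.filter (fun w : Fin R → Ω => R ≤ 2 * (univ.filter (fun r => w r ∈ B)).card)).card : ℝ)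
      * 2 ^ R ≤ (Fintype.card Ω : ℝ) ^ R := by
  classical
  set g : Ω → ℝ := fun o => if o ∈ B then 16 else 1 with hg
  have hprod : ∀ w : Fin R → Ω, ∏ r, g (w r) = 16 ^ (univ.filter (fun r => w r ∈ B)).card := by
    intro w
    simp only [hg]
    rw [Finset.prod_ite]
    simp
  have h1 : ∀ w ∈ univ.filter
      (fun w : Fin R → Ω => R ≤ 2 * (univ.filter (fun r => w r ∈ B)).card),
      (4 : ℝ) ^ R ≤ ∏ r, g (w r) := by
    intro w hw
    simp only [mem_filter, mem_univ, true_and] at hw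
    rw [hprod w]
    calc (4 : ℝ) ^ R ≤ 4 ^ (2 * (univ.filter (fun r => w r ∈ B)).card) :=
        pow_le_pow_right₀ (by norm_num) hw
      _ = 16 ^ (univ.filter (fun r => w r ∈ B)).card := by
        rw [pow_mul]; norm_num
  have h2 : ((univ.filter
      (fun w : Fin R → Ω => R ≤ 2 * (univ.filter (fun r => w r ∈ B)).card)).card : ℝ) * 4 ^ R
      ≤ ∑ w : Fin R → Ω, ∏ r, g (w r) := by
    calc ((univ.filter
      (fun w : Fin R → Ω => R ≤ 2 * (univ.filter (fun r => w r ∈ B)).card)).card : ℝ) * 4 ^ R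
        = ∑ w ∈ univ.filter
          (fun w : Fin R → Ω => R ≤ 2 * (univ.filter (fun r => w r ∈ B)).card), (4 : ℝ) ^ R := by
          simp
      _ ≤ ∑ w ∈ univ.filter
          (fun w : Fin R → Ω => R ≤ 2 * (univ.filter (fun r => w r ∈ B)).card), ∏ r, g (w r) :=
          Finset.sum_le_sum h1
      _ ≤ _ := Finset.sum_le_sum_of_subset_of_nonneg (Finset.subset_univ _)
          (fun w _ _ => by rw [hprod w]; positivity)
  have h3 : ∑ w : Fin R → Ω, ∏ r, g (w r) = (∑ o, g o) ^ R := by
    have := Finset.prod_univ_sum (fun _ : Fin R => (univ : Finset Ω)) (fun _ o => g o)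
    rw [Fintype.piFinset_univ] at this
    rw [← this]
    simp
  have h4 : ∑ o, g o ≤ 2 * (Fintype.card Ω : ℝ) := by
    have h5 : ∀ o, g o ≤ 1 + 16 * (if o ∈ B then 1 else 0) := by
      intro o
      simp only [hg]
      split_ifs <;> norm_num
    calc ∑ o, g o ≤ ∑ o, (1 + 16 * (if o ∈ B then (1 : ℝ) else 0)) :=
        Finset.sum_le_sum fun o _ => h5 o
      _ = (Fintype.card Ω : ℝ) + 16 * B.card := by
        rw [Finset.sum_add_distrib, ← Finset.mul_sum]
        simp
      _ ≤ _ := by linarith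
  have h6 : ∑ w : Fin R → Ω, ∏ r, g (w r) ≤ (2 * (Fintype.card Ω : ℝ)) ^ R := by
    rw [h3]
    refine pow_le_pow_left₀ (Finset.sum_nonneg fun o _ => ?_) h4 R
    simp only [hg]
    split_ifs <;> norm_num
  have h7 : ((univ.filter
      (fun w : Fin R → Ω => R ≤ 2 * (univ.filter (fun r => w r ∈ B)).card)).card : ℝ) * 4 ^ R
      ≤ 2 ^ R * (Fintype.card Ω : ℝ) ^ R := by
    rw [← mul_pow]
    exact h2.trans h6
  have h8 : (4 : ℝ) ^ R = 2 ^ R * 2 ^ R := by
    rw [← mul_pow]; norm_num
  rw [h8] at h7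
  have h9 : (0 : ℝ) < 2 ^ R := by positivity
  have h10 : 2 ^ R * (((univ.filter
      (fun w : Fin R → Ω => R ≤ 2 * (univ.filter (fun r => w r ∈ B)).card)).card : ℝ) * 2 ^ R)
      ≤ 2 ^ R * (Fintype.card Ω : ℝ) ^ R := by
    linarith
  exact le_of_mul_le_mul_left h10 h9

/-- The value decoded from `R` estimates: a number of absolute value at most four which is within
`δ` of more than half of the estimates, if there is one. -/
noncomputable def dec {R : ℕ} (δ : ℝ) (e : Fin R → ℝ) : ℝ := by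
  classical
  exact if h : ∃ v : ℝ, |v| ≤ 4 ∧ 2 * (univ.filter (fun r => δ < |e r - v|)).card < R
    then h.choose else 0

lemma abs_dec_le {R : ℕ} (δ : ℝ) (e : Fin R → ℝ) : |dec δ e| ≤ 4 := by
  classical
  unfold dec
  split_ifs with h
  · exact h.choose_spec.1
  · simp

lemma dec_close {R : ℕ} (δ : ℝ) (e : Fin R → ℝ) (v : ℝ) (hv : |v| ≤ 4)
    (h : 2 * (univ.filter (fun r => δ < |e r - v|)).card < R) : |dec δ e - v| ≤ 2 * δ := by
  classical
  have hex : ∃ v : ℝ, |v| ≤ 4 ∧ 2 * (univ.filter (fun r => δ < |e r - v|)).card < R := by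
    refine ⟨v, hv, ?_⟩
    convert h
  have hdec : dec δ e = hex.choose := by
    unfold dec
    rw [dif_pos hex]
  have hspec := hex.choose_spec.2
  rw [← hdec] at hspec
  set V := dec δ e
  -- a common good repetition
  have hcommon : ∃ r : Fin R, |e r - V| ≤ δ ∧ |e r - v| ≤ δ := by
    by_contra hcon
    push Not at hcon
    have hsub : (univ : Finset (Fin R)) ⊆ univ.filter (fun r => δ < |e r - V|)
        ∪ univ.filter (fun r => δ < |e r - v|) := by
      intro r _
      simp only [mem_union, mem_filter, mem_univ, true_and]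
      by_cases h1 : |e r - V| ≤ δ
      · exact Or.inr (hcon r h1)
      · exact Or.inl (not_le.mp h1)
    have h2 := (Finset.card_le_card hsub).trans (Finset.card_union_le _ _)
    rw [Finset.card_univ, Fintype.card_fin] at h2
    have h3 : 2 * (univ.filter (fun r => δ < |e r - v|)).card < R := by convert h
    omega
  obtain ⟨r, h1, h2⟩ := hcommon
  have h3 : V - v = (e r - v) - (e r - V) := by ring
  rw [h3]
  calc |(e r - v) - (e r - V)| ≤ |e r - v| + |e r - V| := abs_sub _ _
    _ ≤ 2 * δ := by linarith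

variable {κ : Type} [Fintype κ] [DecidableEq κ]

/-- The whole count sketch: `R` repetitions, all coordinates decoded at once. The probability that
some coordinate is not decoded correctly is at most the number of coordinates times `2 ^ (-R)`. -/
theorem sketch_fail (b R : ℕ) [NeZero b] (x y z : κ → ℝ) (Y1 Z2 τ δ : ℝ)
    (hx : ∀ i, x i = y i + z i) (hx4 : ∀ i, |x i| ≤ 4) (hy : ∑ i, |y i| ≤ Y1)
    (hz : ∑ i, z i ^ 2 ≤ Z2) (hτ0 : 0 < τ) (hδ0 : 0 < δ)
    (hτ : 32 * Y1 ≤ τ * b) (hδ : 64 * (τ * Y1 + Z2) ≤ δ ^ 2 * b) :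
    ((univ.filter (fun w : Fin R → (κ → ZMod b) × (κ → ℤˣ) =>
        ∃ i, 2 * δ < |dec δ (fun r => est b x (w r) i) - x i|)).card : ℝ) * 2 ^ R
      ≤ (Fintype.card κ : ℝ) * (Fintype.card ((κ → ZMod b) × (κ → ℤˣ)) : ℝ) ^ R := by
  classical
  set B : κ → Finset ((κ → ZMod b) × (κ → ℤˣ)) := fun i =>
    univ.filter (fun w : (κ → ZMod b) × (κ → ℤˣ) => δ < |est b x w i - x i|) with hB
  have hcover : univ.filter (fun w : Fin R → (κ → ZMod b) × (κ → ℤˣ) =>
        ∃ i, 2 * δ < |dec δ (fun r => est b x (w r) i) - x i|)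
      ⊆ univ.biUnion fun i => univ.filter (fun w : Fin R → (κ → ZMod b) × (κ → ℤˣ) =>
        R ≤ 2 * (univ.filter (fun r => w r ∈ B i)).card) := by
    intro w hw
    simp only [mem_filter, mem_univ, true_and] at hw
    obtain ⟨i, hi⟩ := hw
    simp only [mem_biUnion, mem_filter, mem_univ, true_and]
    refine ⟨i, ?_⟩
    by_contra hlt
    push Not at hlt
    have := dec_close δ (fun r => est b x (w r) i) (x i) (hx4 i) (by
      simpa [hB] using hlt)
    linarith
  have h1 : ((univ.filter (fun w : Fin R → (κ → ZMod b) × (κ → ℤˣ) =>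
        ∃ i, 2 * δ < |dec δ (fun r => est b x (w r) i) - x i|)).card : ℝ)
      ≤ ∑ i : κ, ((univ.filter (fun w : Fin R → (κ → ZMod b) × (κ → ℤˣ) =>
        R ≤ 2 * (univ.filter (fun r => w r ∈ B i)).card)).card : ℝ) := by
    have h2 := (Finset.card_le_card hcover).trans Finset.card_biUnion_le
    exact_mod_cast h2
  calc ((univ.filter (fun w : Fin R → (κ → ZMod b) × (κ → ℤˣ) =>
        ∃ i, 2 * δ < |dec δ (fun r => est b x (w r) i) - x i|)).card : ℝ) * 2 ^ R
      ≤ (∑ i : κ, ((univ.filter (fun w : Fin R → (κ → ZMod b) × (κ → ℤˣ) =>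
        R ≤ 2 * (univ.filter (fun r => w r ∈ B i)).card)).card : ℝ)) * 2 ^ R := by gcongr
    _ = ∑ i : κ, ((univ.filter (fun w : Fin R → (κ → ZMod b) × (κ → ℤˣ) =>
        R ≤ 2 * (univ.filter (fun r => w r ∈ B i)).card)).card : ℝ) * 2 ^ R := by
        rw [Finset.sum_mul]
    _ ≤ ∑ _i : κ, (Fintype.card ((κ → ZMod b) × (κ → ℤˣ)) : ℝ) ^ R := by
        refine Finset.sum_le_sum fun i _ => ?_
        exact majority_card (B i) (single_rep b x y z Y1 Z2 τ δ hx hy hz hτ0 hδ0 hτ hδ i) R
    _ = _ := by simp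

end Pool.Agent.H5.Gain
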