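import Mathlib
import Pool.Agent.H5.Gain.Alg
import Pool.Agent.H5.Gain.Maj

set_option autoImplicit false

/-! The randomized algorithm: exact measurement of the first levels, count sketch for the middle
levels, zero for the rest. -/

namespace Pool.Agent.H5.Gain

open ENNReal MeasureTheory Finset

/-- The coordinates of level below `J`. -/
def lowIdx (J : ℕ) : Finset Idx := (Finset.range J).sigma fun _ => Finset.univ

/-- The coordinates of level between `J` and `J'`. -/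
def midIdx (J J' : ℕ) : Finset Idx := (Finset.Ico J J').sigma fun _ => Finset.univ

lemma mem_lowIdx {J : ℕ} {i : Idx} : i ∈ lowIdx J ↔ i.1 < J := by
  simp [lowIdx]

lemma mem_midIdx {J J' : ℕ} {i : Idx} : i ∈ midIdx J J' ↔ J ≤ i.1 ∧ i.1 < J' := by
  simp [midIdx]

lemma card_lowIdx (J : ℕ) : (lowIdx J).card = ∑ j ∈ Finset.range J, 4 ^ (j ^ 3) := by
  simp [lowIdx, Finset.card_sigma]

lemma card_midIdx (J J' : ℕ) : (midIdx J J').card = ∑ j ∈ Finset.Ico J J', 4 ^ (j ^ 3) := by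
  simp [midIdx, Finset.card_sigma]

lemma bw_exp_mono {J j : ℕ} (h : J ≤ j) : J + (J ^ 3 - J ^ 2) ≤ j + (j ^ 3 - j ^ 2) := by
  have e : ∀ k : ℕ, k ^ 3 - k ^ 2 = k ^ 2 * (k - 1) := by
    intro k
    rw [Nat.mul_sub, mul_one]
    congr 1
  rw [e, e]
  gcongr

lemma bw_ge {J : ℕ} {i : Idx} (h : J ≤ i.1) : (2 : ℝ) ^ (J + (J ^ 3 - J ^ 2)) ≤ bw i :=
  pow_le_pow_right₀ (by norm_num) (bw_exp_mono h)

lemma aw_ge {J : ℕ} {i : Idx} (h : J ≤ i.1) : (2 : ℝ) ^ J ≤ aw i :=
  pow_le_pow_right₀ (by norm_num) h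

/-- The random choices. -/
abbrev Om (R b J J' : ℕ) : Type :=
  Fin R → ({x // x ∈ midIdx J J'} → ZMod b) × ({x // x ∈ midIdx J J'} → ℤˣ)

/-- The measurements. -/
noncomputable def meas (R b J J' : ℕ) (w : Om R b J J') :
    ({x // x ∈ lowIdx J} ⊕ (Fin R × ZMod b)) → (Xsum →L[ℝ] ℝ)
  | Sum.inl i => (evalInf i.1).comp Ssum
  | Sum.inr rc => ∑ j : {x // x ∈ midIdx J J'} with (w rc.1).1 j = rc.2,
      sg ((w rc.1).2 j) • (evalInf j.1).comp Ssum

/-- The reconstruction, as a sequence. -/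
noncomputable def recSeq (R b J J' : ℕ) (δ : ℝ) (w : Om R b J J')
    (v : ({x // x ∈ lowIdx J} ⊕ (Fin R × ZMod b)) → ℝ) (i : Idx) : ℝ :=
  if h : i ∈ lowIdx J then v (Sum.inl ⟨i, h⟩)
  else if h : i ∈ midIdx J J' then
    dec δ (fun r => sg ((w r).2 ⟨i, h⟩) * v (Sum.inr (r, (w r).1 ⟨i, h⟩)))
  else 0

lemma recSeq_mem (R b J J' : ℕ) (δ : ℝ) (w : Om R b J J')
    (v : ({x // x ∈ lowIdx J} ⊕ (Fin R × ZMod b)) → ℝ) :
    Memℓp (recSeq R b J J' δ w v) ∞ := by
  classical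
  refine (memℓp_zero ?_).of_exponent_ge zero_le
  refine ((lowIdx J ∪ midIdx J J').finite_toSet).subset ?_
  intro i hi
  by_contra h
  simp only [coe_union, Set.mem_union, mem_coe, not_or] at h
  apply hi
  simp [recSeq, h.1, h.2]

/-- The reconstruction, as an element of `l_infinity`. -/
noncomputable def recInf (R b J J' : ℕ) (δ : ℝ) (w : Om R b J J')
    (v : ({x // x ∈ lowIdx J} ⊕ (Fin R × ZMod b)) → ℝ) : Yinf :=
  ⟨recSeq R b J J' δ w v, recSeq_mem R b J J' δ w v⟩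

theorem eRan_bound (n J J' b R : ℕ) (hb : 0 < b)
    (hn : (∑ j ∈ Finset.range J, 4 ^ (j ^ 3)) + R * b ≤ n) (δ : ℝ) (hδ0 : 0 < δ)
    (hδ : 64 * (128 / b + 4 / (2 ^ (J + (J ^ 3 - J ^ 2))) ^ 2) ≤ δ ^ 2 * b) :
    eRanFin Ssum (Metric.closedBall 0 1) n ≤ ENNReal.ofReal
      (2 * δ + 4 / 2 ^ J' + 8 * (((∑ j ∈ Finset.Ico J J', 4 ^ (j ^ 3) : ℕ) : ℝ) / 2 ^ R)) := by
  classical
  have : NeZero b := ⟨hb.ne'⟩
  have hb0 : (0 : ℝ) < b := by exact_mod_cast hb
  refine eRanFin_le_of_finite Ssum (Metric.closedBall 0 1) n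
    (K := {x // x ∈ lowIdx J} ⊕ (Fin R × ZMod b)) (Ω := Om R b J J') ?_
    (meas R b J J') (recInf R b J J' δ) _ ?_
  · rw [Fintype.card_sum, Fintype.card_prod, Fintype.card_fin, ZMod.card, Fintype.card_coe,
      card_lowIdx]
    exact hn
  intro f hf
  rw [mem_closedBall_zero_iff] at hf
  obtain ⟨p, hpf, hp2⟩ := exists_rep f hf
  have hSf : ∀ i, Ssum f i = co p i := by
    intro i
    rw [← hpf, Ssum_mk, S0_apply]
  -- restriction to the middle levels
  set x : {x // x ∈ midIdx J J'} → ℝ := fun i => co p i.1 with hx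
  set y : {x // x ∈ midIdx J J'} → ℝ := fun i => p.1 i.1 / aw i.1 with hy
  set z : {x // x ∈ midIdx J J'} → ℝ := fun i => p.2 i.1 / bw i.1 with hz
  have hxyz : ∀ i, x i = y i + z i := fun i => rfl
  have hco4 : ∀ i, |co p i| ≤ 4 := by
    intro i
    have := abs_co_le' p i
    linarith
  have hysum : ∑ i, |y i| ≤ 2 := by
    have h1 : ∀ i, |y i| ≤ ‖p.1 i.1‖ := by
      intro i
      simp only [hy, abs_div, abs_of_pos (aw_pos i.1), Real.norm_eq_abs]
      exact div_le_self (abs_nonneg _) (one_le_aw _)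
    have h2 : ∑ i : {x // x ∈ midIdx J J'}, ‖p.1 i.1‖ = ∑ i ∈ midIdx J J', ‖p.1 i‖ :=
      Finset.sum_coe_sort (midIdx J J') (fun i => ‖p.1 i‖)
    have h3 := lp.sum_rpow_le_norm_rpow (p := 1) (by norm_num) p.1 (midIdx J J')
    simp only [ENNReal.toReal_one, Real.rpow_one] at h3
    calc ∑ i, |y i| ≤ ∑ i : {x // x ∈ midIdx J J'}, ‖p.1 i.1‖ := Finset.sum_le_sum fun i _ => h1 i
      _ = ∑ i ∈ midIdx J J', ‖p.1 i‖ := h2
      _ ≤ ‖p.1‖ := h3
      _ ≤ ‖p‖ := norm_fst_le p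
      _ ≤ 2 := hp2
  have hzsum : ∑ i, z i ^ 2 ≤ 4 / (2 ^ (J + (J ^ 3 - J ^ 2))) ^ 2 := by
    set β : ℝ := 2 ^ (J + (J ^ 3 - J ^ 2)) with hβ
    have hβ0 : 0 < β := by positivity
    have h1 : ∀ i, z i ^ 2 ≤ ‖p.2 i.1‖ ^ 2 / β ^ 2 := by
      intro i
      simp only [hz]
      rw [div_pow, Real.norm_eq_abs, sq_abs]
      have h0 : β ≤ bw i.1 := bw_ge (mem_midIdx.mp i.2).1
      gcongr
    have h2 : ∑ i : {x // x ∈ midIdx J J'}, ‖p.2 i.1‖ ^ 2 = ∑ i ∈ midIdx J J', ‖p.2 i‖ ^ 2 :=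
      Finset.sum_coe_sort (midIdx J J') (fun i => ‖p.2 i‖ ^ 2)
    have h3 := lp.sum_rpow_le_norm_rpow (p := 2) (by norm_num) p.2 (midIdx J J')
    simp only [ENNReal.toReal_ofNat, Real.rpow_ofNat] at h3
    have h4 : ‖p.2‖ ^ 2 ≤ 4 := by
      have := (norm_snd_le p).trans hp2
      nlinarith [norm_nonneg p.2]
    calc ∑ i, z i ^ 2 ≤ ∑ i : {x // x ∈ midIdx J J'}, ‖p.2 i.1‖ ^ 2 / β ^ 2 :=
          Finset.sum_le_sum fun i _ => h1 i
      _ = (∑ i ∈ midIdx J J', ‖p.2 i‖ ^ 2) / β ^ 2 := by rw [← Finset.sum_div, h2]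
      _ ≤ 4 / β ^ 2 := by
        gcongr
        exact h3.trans h4
  have hfail := sketch_fail b R x y z 2 (4 / (2 ^ (J + (J ^ 3 - J ^ 2))) ^ 2) (64 / b) δ hxyz
    (fun i => hco4 i.1) hysum hzsum (by positivity) hδ0
    (by rw [div_mul_cancel₀ _ hb0.ne']; norm_num)
    (by
      refine le_trans (le_of_eq ?_) hδ
      ring)
  set Bad : Finset (Om R b J J') := univ.filter (fun w =>
    ∃ i, 2 * δ < |dec δ (fun r => est b x (w r) i) - x i|) with hBad
  -- the coordinates of the error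
  have hJ' : (0 : ℝ) < 2 ^ J' := by positivity
  have hrest : ∀ i, i ∉ lowIdx J → i ∉ midIdx J J' → |co p i| ≤ 4 / 2 ^ J' := by
    intro i h1 h2
    rw [mem_lowIdx, not_lt] at h1
    rw [mem_midIdx, not_and, not_lt] at h2
    have h3 := h2 h1
    refine (abs_co_le p i).trans ?_
    have h4 := aw_ge h3
    have h5 : 2 * ‖p‖ ≤ 4 := by linarith
    gcongr
  have hv : ∀ (w : Om R b J J') (i : {x // x ∈ midIdx J J'}) (r : Fin R),
      sg ((w r).2 i) * (meas R b J J' w (Sum.inr (r, (w r).1 i))) f = est b x (w r) i := by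
    intro w i r
    unfold est meas
    congr 1
    rw [_root_.sum_apply]
    refine Finset.sum_congr rfl fun j _ => ?_
    rw [_root_.smul_apply, ContinuousLinearMap.comp_apply, evalInf_apply, hSf,
      smul_eq_mul]
  have herr : ∀ w i, (Ssum f - recInf R b J J' δ w (fun k => meas R b J J' w k f)) i
      = if h : i ∈ lowIdx J then 0 else if h : i ∈ midIdx J J' then
        x ⟨i, h⟩ - dec δ (fun r => est b x (w r) ⟨i, h⟩) else co p i := by
    intro w i
    rw [lp.coeFn_sub, Pi.sub_apply, hSf]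
    change co p i - recSeq R b J J' δ w (fun k => meas R b J J' w k f) i = _
    unfold recSeq
    by_cases h1 : i ∈ lowIdx J
    · rw [dif_pos h1, dif_pos h1]
      change co p i - (evalInf i).comp Ssum f = 0
      rw [ContinuousLinearMap.comp_apply, evalInf_apply, hSf, sub_self]
    · rw [dif_neg h1, dif_neg h1]
      by_cases h2 : i ∈ midIdx J J'
      · rw [dif_pos h2, dif_pos h2]
        simp only [hv]
        rfl
      · rw [dif_neg h2, dif_neg h2, sub_zero]
  have hall : ∀ w, ‖Ssum f - recInf R b J J' δ w (fun k => meas R b J J' w k f)‖ ≤ 8 := by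
    intro w
    refine lp.norm_le_of_forall_le (by norm_num) ?_
    intro i
    rw [herr, Real.norm_eq_abs]
    split_ifs with h1 h2
    · norm_num
    · have h3 := abs_dec_le δ (fun r => est b x (w r) ⟨i, h2⟩)
      have h4 := hco4 i
      calc |x ⟨i, h2⟩ - dec δ (fun r => est b x (w r) ⟨i, h2⟩)|
          ≤ |x ⟨i, h2⟩| + |dec δ (fun r => est b x (w r) ⟨i, h2⟩)| := abs_sub _ _
        _ ≤ 4 + 4 := add_le_add h4 h3
        _ = 8 := by norm_num
    · have := hco4 i
      linarith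
  have hgood : ∀ w, w ∉ Bad →
      ‖Ssum f - recInf R b J J' δ w (fun k => meas R b J J' w k f)‖ ≤ 2 * δ + 4 / 2 ^ J' := by
    intro w hw
    simp only [hBad, mem_filter, mem_univ, true_and, not_exists, not_lt] at hw
    refine lp.norm_le_of_forall_le (by positivity) ?_
    intro i
    rw [herr, Real.norm_eq_abs]
    have h4J : 0 < 4 / (2 : ℝ) ^ J' := by positivity
    split_ifs with h1 h2
    · rw [abs_zero]; positivity
    · rw [abs_sub_comm]
      have := hw ⟨i, h2⟩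
      linarith
    · have := hrest i h1 h2
      linarith
  -- the average
  set G : ℝ := 2 * δ + 4 / 2 ^ J' with hG
  have hG0 : 0 ≤ G := by positivity
  have hcardBad : (Bad.card : ℝ) ≤ Fintype.card (Om R b J J')
      * (((∑ j ∈ Finset.Ico J J', 4 ^ (j ^ 3) : ℕ) : ℝ) / 2 ^ R) := by
    have h1 : (Fintype.card (Om R b J J') : ℝ)
        = (Fintype.card (({x // x ∈ midIdx J J'} → ZMod b)
          × ({x // x ∈ midIdx J J'} → ℤˣ)) : ℝ) ^ R := by
      rw [Fintype.card_fun, Fintype.card_fin, Nat.cast_pow]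
    rw [h1, ← card_midIdx, ← Fintype.card_coe (midIdx J J')]
    rw [← mul_div_assoc, le_div_iff₀ (by positivity), mul_comm (_ ^ R)]
    exact hfail
  calc ∑ w, ‖Ssum f - recInf R b J J' δ w (fun k => meas R b J J' w k f)‖
      ≤ ∑ w, (G + 8 * (if w ∈ Bad then (1 : ℝ) else 0)) := by
        refine Finset.sum_le_sum fun w _ => ?_
        by_cases hw : w ∈ Bad
        · rw [if_pos hw]
          have := hall w
          linarith
        · rw [if_neg hw]
          have := hgood w hw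
          linarith
    _ = Fintype.card (Om R b J J') * G + 8 * Bad.card := by
        rw [Finset.sum_add_distrib, ← Finset.mul_sum]
        simp
    _ ≤ Fintype.card (Om R b J J') * G + 8 * (Fintype.card (Om R b J J')
      * (((∑ j ∈ Finset.Ico J J', 4 ^ (j ^ 3) : ℕ) : ℝ) / 2 ^ R)) := by gcongr
    _ = _ := by ring

end Pool.Agent.H5.Gain
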