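import Mathlib
import Pool.Agent.H5.Gain.Upper

set_option autoImplicit false

/-! Choice of the parameters and asymptotics. -/

namespace Pool.Agent.H5.Gain

open ENNReal MeasureTheory Finset

/-- Trivial upper bound through exact measurement of the first levels. -/
theorem eDet_le (J n : ℕ) (hn : ∑ j ∈ Finset.range J, 4 ^ (j ^ 3) ≤ n) :
    eDet Ssum (Metric.closedBall 0 1) n ≤ ENNReal.ofReal (4 / 2 ^ J) := by
  classical
  obtain ⟨e⟩ : Nonempty ({x // x ∈ lowIdx J} ↪ Fin n) :=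
    Function.Embedding.nonempty_of_card_le (by
      rw [Fintype.card_coe, card_lowIdx, Fintype.card_fin]
      exact hn)
  set seq : (Fin n → ℝ) → Idx → ℝ := fun v i =>
    if h : i ∈ lowIdx J then v (e ⟨i, h⟩) else 0 with hseq
  have hmem : ∀ v, Memℓp (seq v) ∞ := by
    intro v
    refine (memℓp_zero ?_).of_exponent_ge zero_le
    refine ((lowIdx J).finite_toSet).subset ?_
    intro i hi
    by_contra h
    apply hi
    have h' : i ∉ lowIdx J := h
    simp [hseq, h']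
  unfold eDet
  refine (iInf_le _ (Function.extend e (fun i => (evalInf i.1).comp Ssum) 0)).trans ?_
  refine (iInf_le _ (fun v => (⟨seq v, hmem v⟩ : Yinf))).trans ?_
  refine iSup₂_le fun f hf => ?_
  rw [mem_closedBall_zero_iff] at hf
  obtain ⟨p, hpf, hp2⟩ := exists_rep f hf
  have hSf : ∀ i, Ssum f i = co p i := by
    intro i
    rw [← hpf, Ssum_mk, S0_apply]
  rw [← ofReal_norm]
  refine ENNReal.ofReal_le_ofReal ?_
  refine lp.norm_le_of_forall_le (by positivity) ?_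
  intro i
  rw [lp.coeFn_sub, Pi.sub_apply, hSf]
  change ‖co p i - seq (fun k => (Function.extend e
    (fun i : {x // x ∈ lowIdx J} => (evalInf i.1).comp Ssum) 0 k) f) i‖ ≤ _
  simp only [hseq]
  by_cases h : i ∈ lowIdx J
  · rw [dif_pos h, e.injective.extend_apply, ContinuousLinearMap.comp_apply, evalInf_apply, hSf,
      sub_self, norm_zero]
    positivity
  · rw [dif_neg h, sub_zero, Real.norm_eq_abs]
    rw [mem_lowIdx, not_lt] at h
    refine (abs_co_le p i).trans ?_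
    have h4 := aw_ge h
    have h5 : 2 * ‖p‖ ≤ 4 := by linarith
    gcongr

/-- The zero algorithm. -/
theorem eRan_le_four (n : ℕ) : eRanFin Ssum (Metric.closedBall 0 1) n ≤ ENNReal.ofReal 4 := by
  refine eRanFin_le_of_finite Ssum (Metric.closedBall 0 1) n (K := Empty) (Ω := Unit) (by simp)
    (fun _ k => k.elim) (fun _ _ => 0) 4 ?_
  intro f hf
  rw [mem_closedBall_zero_iff] at hf
  obtain ⟨p, hpf, hp2⟩ := exists_rep f hf
  simp only [sub_zero, univ_unique, PUnit.default_eq_unit, sum_const, card_singleton, one_smul,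
    Fintype.card_unit, Nat.cast_one, one_mul]
  refine lp.norm_le_of_forall_le (by norm_num) ?_
  intro i
  rw [← hpf, Ssum_mk, S0_apply, Real.norm_eq_abs]
  have := abs_co_le' p i
  linarith

/-- Total number of coordinates of the first levels. -/
lemma total_le (J : ℕ) : ∑ j ∈ Finset.range J, 4 ^ (j ^ 3) ≤ 4 ^ (J ^ 3) := by
  induction J with
  | zero => simp
  | succ J ih =>
    rw [Finset.sum_range_succ]
    calc ∑ j ∈ Finset.range J, 4 ^ (j ^ 3) + 4 ^ (J ^ 3) ≤ 4 ^ (J ^ 3) + 4 ^ (J ^ 3) := by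
          exact Nat.add_le_add_right ih _
      _ ≤ 4 ^ (J ^ 3 + 1) := by
        have h : ∀ t : ℕ, t + t ≤ t * 4 := by intro t; omega
        exact h _
      _ ≤ 4 ^ ((J + 1) ^ 3) := by
        apply Nat.pow_le_pow_right (by norm_num)
        nlinarith [Nat.zero_le J, Nat.zero_le (J ^ 2)]

/-- The last level that is measured exactly. -/
lemma exists_level (m : ℕ) : ∃ J : ℕ, ∑ j ∈ Finset.range J, 4 ^ (j ^ 3) ≤ m ∧
    m < ∑ j ∈ Finset.range (J + 1), 4 ^ (j ^ 3) := by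
  have hex : ∃ J : ℕ, m < ∑ j ∈ Finset.range (J + 1), 4 ^ (j ^ 3) := by
    refine ⟨m, ?_⟩
    have h1 : ∑ _j ∈ Finset.range (m + 1), 1 ≤ ∑ j ∈ Finset.range (m + 1), 4 ^ (j ^ 3) :=
      Finset.sum_le_sum fun j _ => Nat.one_le_pow _ _ (by norm_num)
    simp only [sum_const, card_range, smul_eq_mul, mul_one] at h1
    omega
  classical
  refine ⟨Nat.find hex, ?_, Nat.find_spec hex⟩
  rcases Nat.eq_zero_or_pos (Nat.find hex) with h | h
  · rw [h]; simp
  · have h1 := Nat.find_min hex (m := Nat.find hex - 1) (by omega)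
    rw [not_lt] at h1
    have h2 : Nat.find hex - 1 + 1 = Nat.find hex := by omega
    rwa [h2] at h1

/-- The main upper bound with all parameters chosen. -/
theorem eRan_main (n l J : ℕ) (hl : n < 2 ^ (l + 1))
    (hJ1 : ∑ j ∈ Finset.range J, 4 ^ (j ^ 3) ≤ n / 2)
    (hJ2 : n / 2 < ∑ j ∈ Finset.range (J + 1), 4 ^ (j ^ 3))
    (hR : 2 * (2 * (l + 1) ^ 3 + (l + 1)) ≤ n) :
    eRanFin Ssum (Metric.closedBall 0 1) n ≤ ENNReal.ofReal
      (738 * (((2 * (l + 1) ^ 3 + (l + 1) : ℕ) : ℝ) + 4 ^ (J ^ 2)) / n) := by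
  set R : ℕ := 2 * (l + 1) ^ 3 + (l + 1) with hRdef
  have hR1 : 1 ≤ R := by
    have : 0 < l + 1 := Nat.succ_pos l
    omega
  have hn0 : 0 < n := by omega
  have hnr : (0 : ℝ) < n := by exact_mod_cast hn0
  have hRr : (1 : ℝ) ≤ R := by exact_mod_cast hR1
  set b : ℕ := n / (2 * R) with hb
  have hb1 : 1 ≤ b := by
    rw [hb, Nat.one_le_div_iff (by omega)]
    exact hR
  have hbr : (1 : ℝ) ≤ b := by exact_mod_cast hb1
  -- `b ≥ n / (4 R)`
  have hb2 : (n : ℝ) ≤ 4 * R * b := by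
    have h1 : n < 2 * R * (b + 1) := by
      rw [hb]
      exact Nat.lt_mul_div_succ n (by omega)
    have h2 : (n : ℝ) < 2 * R * (b + 1) := by exact_mod_cast h1
    nlinarith
  set Q : ℝ := (R : ℝ) + 4 ^ (J ^ 2) with hQ
  have h4J : (1 : ℝ) ≤ 4 ^ (J ^ 2) := one_le_pow₀ (by norm_num)
  have hQR : (R : ℝ) ≤ Q := by linarith
  have hQJ : (4 : ℝ) ^ (J ^ 2) ≤ Q := by linarith
  have hQ0 : 0 < Q := by linarith
  -- the size of the first sketched level
  have hlev : (n : ℝ) ≤ 4 * 4 ^ (J ^ 3) := by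
    have h1 : ∑ j ∈ Finset.range (J + 1), 4 ^ (j ^ 3) ≤ 2 * 4 ^ (J ^ 3) := by
      rw [Finset.sum_range_succ]
      have := total_le J
      omega
    have h2 : n ≤ 4 * 4 ^ (J ^ 3) := by omega
    exact_mod_cast h2
  have hsub : J ^ 2 ≤ J ^ 3 := by
    rcases Nat.eq_zero_or_pos J with h | h
    · subst h; norm_num
    · exact Nat.pow_le_pow_right h (by norm_num)
  have hbeta : 4 / ((2 : ℝ) ^ (J + (J ^ 3 - J ^ 2))) ^ 2 ≤ 16 * Q / n := by
    have h1 : ((2 : ℝ) ^ (J + (J ^ 3 - J ^ 2))) ^ 2 = 4 ^ (J + (J ^ 3 - J ^ 2)) := by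
      rw [← pow_mul, mul_comm, pow_mul]; norm_num
    rw [h1]
    have h2 : (4 : ℝ) ^ (J ^ 3) ≤ 4 ^ (J + (J ^ 3 - J ^ 2)) * 4 ^ (J ^ 2) := by
      rw [← pow_add]
      apply pow_le_pow_right₀ (by norm_num)
      omega
    rw [div_le_div_iff₀ (by positivity) hnr]
    have h3 : (0 : ℝ) < 4 ^ (J + (J ^ 3 - J ^ 2)) := by positivity
    calc 4 * (n : ℝ) ≤ 4 * (4 * 4 ^ (J ^ 3)) := by linarith
      _ ≤ 4 * (4 * (4 ^ (J + (J ^ 3 - J ^ 2)) * 4 ^ (J ^ 2))) := by linarith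
      _ ≤ 4 * (4 * (4 ^ (J + (J ^ 3 - J ^ 2)) * Q)) := by gcongr
      _ = 16 * Q * 4 ^ (J + (J ^ 3 - J ^ 2)) := by ring
  have hinvb : 128 / (b : ℝ) ≤ 512 * R / n := by
    rw [div_le_div_iff₀ (by linarith) hnr]
    nlinarith
  set δ : ℝ := 363 * Q / n with hδ
  have hδ0 : 0 < δ := by positivity
  have hmain : 64 * (128 / (b : ℝ) + 4 / ((2 : ℝ) ^ (J + (J ^ 3 - J ^ 2))) ^ 2) ≤ δ ^ 2 * b := by
    have h1 : 64 * (128 / (b : ℝ) + 4 / ((2 : ℝ) ^ (J + (J ^ 3 - J ^ 2))) ^ 2)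
        ≤ 32768 * Q / n := by
      have h2 : 512 * (R : ℝ) / n + 16 * 4 ^ (J ^ 2) / n ≤ 512 * Q / n := by
        rw [← add_div]
        gcongr
        rw [hQ]
        nlinarith
      have hbeta' : 4 / ((2 : ℝ) ^ (J + (J ^ 3 - J ^ 2))) ^ 2 ≤ 16 * 4 ^ (J ^ 2) / n := by
        have h1 : ((2 : ℝ) ^ (J + (J ^ 3 - J ^ 2))) ^ 2 = 4 ^ (J + (J ^ 3 - J ^ 2)) := by
          rw [← pow_mul, mul_comm, pow_mul]; norm_num
        rw [h1]
        have h2 : (4 : ℝ) ^ (J ^ 3) ≤ 4 ^ (J + (J ^ 3 - J ^ 2)) * 4 ^ (J ^ 2) := by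
          rw [← pow_add]
          apply pow_le_pow_right₀ (by norm_num)
          omega
        rw [div_le_div_iff₀ (by positivity) hnr]
        calc 4 * (n : ℝ) ≤ 4 * (4 * 4 ^ (J ^ 3)) := by linarith
          _ ≤ 4 * (4 * (4 ^ (J + (J ^ 3 - J ^ 2)) * 4 ^ (J ^ 2))) := by linarith
          _ = 16 * 4 ^ (J ^ 2) * 4 ^ (J + (J ^ 3 - J ^ 2)) := by ring
      calc 64 * (128 / (b : ℝ) + 4 / ((2 : ℝ) ^ (J + (J ^ 3 - J ^ 2))) ^ 2)
          ≤ 64 * (512 * R / n + 16 * 4 ^ (J ^ 2) / n) := by gcongr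
        _ ≤ 64 * (512 * Q / n) := by gcongr
        _ = 32768 * Q / n := by ring
    have h2 : 32768 * Q / n ≤ δ ^ 2 * b := by
      have h3 : δ ^ 2 * b = 131769 * Q ^ 2 * b / n ^ 2 := by
        rw [hδ]; ring
      rw [h3, div_le_div_iff₀ hnr (by positivity)]
      have h4 : (n : ℝ) ≤ 4 * Q * b := by
        calc (n : ℝ) ≤ 4 * R * b := hb2
          _ ≤ 4 * Q * b := by gcongr
      calc 32768 * Q * (n : ℝ) ^ 2 = 32768 * Q * n * n := by ring
        _ ≤ 32768 * Q * n * (4 * Q * b) := by gcongr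
        _ = 131072 * (Q ^ 2 * b * n) := by ring
        _ ≤ 131769 * (Q ^ 2 * b * n) := by
          gcongr
          norm_num
        _ = 131769 * Q ^ 2 * b * n := by ring
    exact h1.trans h2
  have hcount : (∑ j ∈ Finset.range J, 4 ^ (j ^ 3)) + R * b ≤ n := by
    have h1 : R * b ≤ n / 2 := by
      rw [Nat.le_div_iff_mul_le (by norm_num)]
      calc R * b * 2 = 2 * R * b := by ring
        _ ≤ n := Nat.mul_div_le n (2 * R)
    omega
  refine (eRan_bound n J (l + 1) b R (by omega) hcount δ hδ0 hmain).trans ?_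
  refine ENNReal.ofReal_le_ofReal ?_
  have hn2 : (n : ℝ) ≤ 2 ^ (l + 1) := by exact_mod_cast hl.le
  have h1 : 4 / (2 : ℝ) ^ (l + 1) ≤ 4 / n := by gcongr
  have h2 : ((∑ j ∈ Finset.Ico J (l + 1), 4 ^ (j ^ 3) : ℕ) : ℝ) / 2 ^ R ≤ 1 / n := by
    have h3 : ∑ j ∈ Finset.Ico J (l + 1), 4 ^ (j ^ 3) ≤ 4 ^ ((l + 1) ^ 3) := by
      refine le_trans ?_ (total_le (l + 1))
      refine Finset.sum_le_sum_of_subset ?_
      intro j hj
      simp only [mem_Ico, mem_range] at hj ⊢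
      exact hj.2
    have h4 : ((∑ j ∈ Finset.Ico J (l + 1), 4 ^ (j ^ 3) : ℕ) : ℝ) ≤ 4 ^ ((l + 1) ^ 3) := by
      exact_mod_cast h3
    have h5 : (2 : ℝ) ^ R = 4 ^ ((l + 1) ^ 3) * 2 ^ (l + 1) := by
      rw [hRdef, pow_add, pow_mul]
      norm_num
    rw [h5]
    rw [div_le_div_iff₀ (by positivity) hnr]
    calc ((∑ j ∈ Finset.Ico J (l + 1), 4 ^ (j ^ 3) : ℕ) : ℝ) * n
        ≤ 4 ^ ((l + 1) ^ 3) * 2 ^ (l + 1) := by gcongr
      _ = 1 * (4 ^ ((l + 1) ^ 3) * 2 ^ (l + 1)) := by ring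
  calc 2 * δ + 4 / 2 ^ (l + 1)
        + 8 * (((∑ j ∈ Finset.Ico J (l + 1), 4 ^ (j ^ 3) : ℕ) : ℝ) / 2 ^ R)
      ≤ 2 * δ + 4 / n + 8 * (1 / n) := by gcongr
    _ = (726 * Q + 12) / n := by rw [hδ]; ring
    _ ≤ 738 * Q / n := by
      gcongr
      linarith

end Pool.Agent.H5.Gain
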