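import Mathlib
import Pool.Agent.H5.Gain.Asym

set_option autoImplicit false

/-! Final rates. -/

namespace Pool.Agent.H5.Gain

open ENNReal MeasureTheory Finset Filter Topology

lemma self_le_sq (η s : ℝ) (hη : 0 < η) (hs : 0 ≤ s) : s ≤ η * s ^ 2 + 1 / η := by
  have h0 : 0 < 1 / η := by positivity
  by_cases h : 1 / η ≤ s
  · have h1 : 1 ≤ η * s := by
      rw [div_le_iff₀ hη] at h
      linarith
    have h2 : s * 1 ≤ s * (η * s) := mul_le_mul_of_nonneg_left h1 hs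
    nlinarith
  · push Not at h
    have : 0 ≤ η * s ^ 2 := by positivity
    linarith

lemma sq_le_cube (η t : ℝ) (hη : 0 < η) (ht : 0 ≤ t) : t ^ 2 ≤ η * t ^ 3 + 1 / η ^ 2 := by
  have h0 : 0 < 1 / η := by positivity
  by_cases h : 1 / η ≤ t
  · have h1 : 1 ≤ η * t := by
      rw [div_le_iff₀ hη] at h
      linarith
    have h2 : t ^ 2 * 1 ≤ t ^ 2 * (η * t) := mul_le_mul_of_nonneg_left h1 (by positivity)
    have h3 : 0 < 1 / η ^ 2 := by positivity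
    nlinarith
  · push Not at h
    have h1 : t ^ 2 ≤ (1 / η) ^ 2 := by gcongr
    have h2 : (1 / η) ^ 2 = 1 / η ^ 2 := by rw [div_pow, one_pow]
    have : 0 ≤ η * t ^ 3 := by positivity
    linarith

/-- `2 ^ (ε l) ≤ n ^ ε` for `2 ^ l ≤ n`. -/
lemma two_rpow_le (ε : ℝ) (hε : 0 < ε) (l n : ℕ) (h : 2 ^ l ≤ n) :
    (2 : ℝ) ^ (ε * l) ≤ (n : ℝ) ^ ε := by
  have h1 : (2 : ℝ) ^ (ε * l) = ((2 : ℝ) ^ l) ^ ε := by
    rw [mul_comm, Real.rpow_mul (by norm_num), Real.rpow_natCast]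
  rw [h1]
  have h2 : (2 : ℝ) ^ l ≤ n := by exact_mod_cast h
  exact Real.rpow_le_rpow (by positivity) h2 hε.le

lemma poly_bound (ε : ℝ) (hε : 0 < ε) : ∃ C : ℝ, 0 < C ∧ ∀ l : ℕ,
    ((2 * (l + 1) ^ 3 + (l + 1) : ℕ) : ℝ) ≤ C * (2 : ℝ) ^ (ε * l) := by
  have hlog : 0 < Real.log 2 := Real.log_pos (by norm_num)
  set c : ℝ := ε * Real.log 2 / 3 with hc
  have hc0 : 0 < c := by positivity
  refine ⟨3 * (1 / c) ^ 3 * (2 : ℝ) ^ ε, by positivity, fun l => ?_⟩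
  have h1 : c * (l + 1) ≤ Real.exp (c * (l + 1)) := by
    have := Real.add_one_le_exp (c * ((l : ℝ) + 1))
    linarith
  have h2 : ((l : ℝ) + 1) ≤ (1 / c) * Real.exp (c * (l + 1)) := by
    rw [one_div, ← div_eq_inv_mul, le_div_iff₀ hc0]
    linarith
  have h3 : ((l : ℝ) + 1) ^ 3 ≤ (1 / c) ^ 3 * Real.exp (c * (l + 1)) ^ 3 := by
    rw [← mul_pow]
    gcongr
  have h4 : Real.exp (c * (l + 1)) ^ 3 = (2 : ℝ) ^ ε * (2 : ℝ) ^ (ε * l) := by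
    rw [← Real.exp_nat_mul, ← Real.rpow_add (by norm_num),
      Real.rpow_def_of_pos (by norm_num : (0 : ℝ) < 2)]
    congr 1
    rw [hc]
    push_cast
    ring
  have h5 : ((2 * (l + 1) ^ 3 + (l + 1) : ℕ) : ℝ) ≤ 3 * ((l : ℝ) + 1) ^ 3 := by
    push_cast
    have h6 : (1 : ℝ) ≤ (l : ℝ) + 1 := by
      have : (0 : ℝ) ≤ l := Nat.cast_nonneg l
      linarith
    have h7 : ((l : ℝ) + 1) * 1 ≤ ((l : ℝ) + 1) * ((l : ℝ) + 1) ^ 2 := by
      gcongr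
      exact one_le_pow₀ h6
    nlinarith
  calc ((2 * (l + 1) ^ 3 + (l + 1) : ℕ) : ℝ) ≤ 3 * ((l : ℝ) + 1) ^ 3 := h5
    _ ≤ 3 * ((1 / c) ^ 3 * Real.exp (c * (l + 1)) ^ 3) := by gcongr
    _ = 3 * (1 / c) ^ 3 * (2 : ℝ) ^ ε * (2 : ℝ) ^ (ε * l) := by rw [h4]; ring

lemma level_bound (ε : ℝ) (hε : 0 < ε) : ∃ C : ℝ, 0 < C ∧ ∀ J l n : ℕ, n < 2 ^ (l + 1) →
    ∑ j ∈ Finset.range J, 4 ^ (j ^ 3) ≤ n / 2 → (4 : ℝ) ^ (J ^ 2) ≤ C * (2 : ℝ) ^ (ε * l) := by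
  set η : ℝ := ε / 2 with hη
  have hη0 : 0 < η := by positivity
  refine ⟨(2 : ℝ) ^ (4 / η ^ 2 + 4), by positivity, fun J l n hn hJ => ?_⟩
  rw [← Real.rpow_add (by norm_num)]
  have h4 : (4 : ℝ) ^ (J ^ 2) = (2 : ℝ) ^ ((2 * (J : ℝ) ^ 2)) := by
    rw [Real.rpow_mul (by norm_num)]
    norm_num
    rw [← Real.rpow_natCast]
    push_cast
    norm_num
  rw [h4]
  apply Real.rpow_le_rpow_of_exponent_le (by norm_num)
  rcases Nat.eq_zero_or_pos J with h0 | hpos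
  · subst h0
    have : (0 : ℝ) ≤ l := Nat.cast_nonneg l
    norm_num
    positivity
  · obtain ⟨t, rfl⟩ : ∃ t, J = t + 1 := ⟨J - 1, by omega⟩
    have h5 : 4 ^ (t ^ 3) ≤ ∑ j ∈ Finset.range (t + 1), 4 ^ (j ^ 3) :=
      Finset.single_le_sum (f := fun j => 4 ^ (j ^ 3)) (fun _ _ => Nat.zero_le _)
        (Finset.mem_range.mpr (Nat.lt_succ_self t))
    have h6 : 2 ^ (2 * t ^ 3) < 2 ^ l := by
      have h7 : (2 : ℕ) ^ (2 * t ^ 3) = 4 ^ (t ^ 3) := by rw [pow_mul]; norm_num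
      rw [h7]
      have h8 : n / 2 < 2 ^ l := by
        rw [Nat.div_lt_iff_lt_mul (by norm_num), ← pow_succ]
        exact hn
      omega
    have h7 : 2 * t ^ 3 < l := (Nat.pow_lt_pow_iff_right (by norm_num)).mp h6
    have h8 : (2 : ℝ) * (t : ℝ) ^ 3 ≤ l := by exact_mod_cast h7.le
    have h9 := sq_le_cube η t hη0 (Nat.cast_nonneg t)
    push_cast
    have h10 : ((t : ℝ) + 1) ^ 2 ≤ 2 * (t : ℝ) ^ 2 + 2 := by nlinarith [sq_nonneg ((t : ℝ) - 1)]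
    have h11 : η * (2 * (t : ℝ) ^ 3) ≤ η * l := by gcongr
    have h12 : 4 / η ^ 2 = 4 * (1 / η ^ 2) := by ring
    have h13 : ε * (l : ℝ) = 2 * (η * l) := by rw [hη]; ring
    rw [h12, h13]
    nlinarith

/-- Lower bound for the deterministic error. -/
theorem det_rate (ε : ℝ) (hε : 0 < ε) : ∃ c : ℝ, 0 < c ∧ ∀ n : ℕ, 0 < n →
    ENNReal.ofReal (c * (n : ℝ) ^ (-ε)) ≤ eDet Ssum (Metric.closedBall 0 1) n := by
  set K : ℝ := 3 * ε + 1 / ε + 1 with hK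
  refine ⟨3 / 4 / (2 : ℝ) ^ K, by positivity, fun n hn => ?_⟩
  set l := Nat.log 2 n with hl
  set s := Nat.sqrt (l + 3) with hs
  have hlt : n < 2 ^ (l + 1) := Nat.lt_pow_succ_log_self (by norm_num) n
  have hle : 2 ^ l ≤ n := Nat.pow_log_le_self 2 hn.ne'
  have hsq : l + 3 < (s + 1) ^ 2 := Nat.lt_succ_sqrt' (l + 3)
  have hsq' : s ^ 2 ≤ l + 3 := Nat.sqrt_le' (l + 3)
  have h4n : 4 * n ≤ 4 ^ ((s + 1) ^ 2) := by
    calc 4 * n ≤ 4 * 2 ^ (l + 1) := by omega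
      _ = 2 ^ (l + 3) := by rw [pow_add 2 l 3, pow_add 2 l 1]; ring
      _ ≤ 2 ^ (2 * (s + 1) ^ 2) := Nat.pow_le_pow_right (by norm_num) (by omega)
      _ = 4 ^ ((s + 1) ^ 2) := by rw [pow_mul]; norm_num
  refine le_trans (ENNReal.ofReal_le_ofReal ?_) (eDet_ge (s + 1) n h4n)
  -- compare the exponents
  have h1 : ((s : ℝ) + 1) ≤ ε * l + K := by
    have h2 := self_le_sq ε s hε (Nat.cast_nonneg s)
    have h3 : (s : ℝ) ^ 2 ≤ l + 3 := by exact_mod_cast hsq'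
    have h4 : ε * (s : ℝ) ^ 2 ≤ ε * (l + 3) := by gcongr
    rw [hK]
    linarith
  have h2 : (2 : ℝ) ^ (s + 1) ≤ (2 : ℝ) ^ K * (n : ℝ) ^ ε := by
    calc (2 : ℝ) ^ (s + 1) = (2 : ℝ) ^ ((s : ℝ) + 1) := by
          rw [← Real.rpow_natCast]; push_cast; rfl
      _ ≤ (2 : ℝ) ^ (ε * l + K) := Real.rpow_le_rpow_of_exponent_le (by norm_num) h1
      _ = (2 : ℝ) ^ K * (2 : ℝ) ^ (ε * l) := by rw [Real.rpow_add (by norm_num), mul_comm]
      _ ≤ (2 : ℝ) ^ K * (n : ℝ) ^ ε := by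
        gcongr
        exact two_rpow_le ε hε l n hle
  have hn' : (0 : ℝ) < n := by exact_mod_cast hn
  rw [Real.rpow_neg hn'.le, div_mul_eq_mul_div, ← div_eq_mul_inv, div_div]
  have h3 : (0 : ℝ) < (n : ℝ) ^ ε := by positivity
  rw [div_le_div_iff₀ (by positivity) (by positivity)]
  have h5 : 3 / 4 * (2 : ℝ) ^ (s + 1) ≤ 3 / 4 * ((2 : ℝ) ^ K * (n : ℝ) ^ ε) := by gcongr
  linarith

/-- Upper bound for the randomized error. -/
theorem ran_rate (ε : ℝ) (hε : 0 < ε) : ∃ C : ℝ, 0 < C ∧ ∀ n : ℕ, 0 < n →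
    eRanFin Ssum (Metric.closedBall 0 1) n ≤ ENNReal.ofReal (C * (n : ℝ) ^ (-1 + ε)) := by
  obtain ⟨C1, hC1, h1⟩ := poly_bound ε hε
  obtain ⟨C2, hC2, h2⟩ := level_bound ε hε
  refine ⟨738 * (C1 + C2) + 8 * C1, by positivity, fun n hn => ?_⟩
  have hn' : (0 : ℝ) < n := by exact_mod_cast hn
  set l := Nat.log 2 n with hl
  have hlt : n < 2 ^ (l + 1) := Nat.lt_pow_succ_log_self (by norm_num) n
  have hle : 2 ^ l ≤ n := Nat.pow_log_le_self 2 hn.ne'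
  have hpow := two_rpow_le ε hε l n hle
  have hnε : (n : ℝ) ^ (-1 + ε) = (n : ℝ) ^ ε / n := by
    rw [Real.rpow_add hn', Real.rpow_neg_one, div_eq_inv_mul]
  have hpos : (0 : ℝ) < (n : ℝ) ^ ε := by positivity
  by_cases hR : 2 * (2 * (l + 1) ^ 3 + (l + 1)) ≤ n
  · obtain ⟨J, hJ1, hJ2⟩ := exists_level (n / 2)
    refine (eRan_main n l J hlt hJ1 hJ2 hR).trans (ENNReal.ofReal_le_ofReal ?_)
    rw [hnε, ← mul_div_assoc]
    have h3 : ((2 * (l + 1) ^ 3 + (l + 1) : ℕ) : ℝ) ≤ C1 * (n : ℝ) ^ ε :=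
      (h1 l).trans (by gcongr)
    have h4 : (4 : ℝ) ^ (J ^ 2) ≤ C2 * (n : ℝ) ^ ε := (h2 J l n hlt hJ1).trans (by gcongr)
    have h5 : 0 ≤ C1 * (n : ℝ) ^ ε := by positivity
    apply div_le_div_of_nonneg_right _ hn'.le
    linarith
  · refine (eRan_le_four n).trans (ENNReal.ofReal_le_ofReal ?_)
    push Not at hR
    have h3 : (n : ℝ) < 2 * ((2 * (l + 1) ^ 3 + (l + 1) : ℕ) : ℝ) := by exact_mod_cast hR
    have h4 : (n : ℝ) ≤ 2 * (C1 * (n : ℝ) ^ ε) := by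
      refine h3.le.trans ?_
      have h5 : ((2 * (l + 1) ^ 3 + (l + 1) : ℕ) : ℝ) ≤ C1 * (n : ℝ) ^ ε :=
        (h1 l).trans (by gcongr)
      linarith
    rw [hnε, ← mul_div_assoc, le_div_iff₀ hn']
    have h6 : 0 ≤ 738 * (C1 + C2) * (n : ℝ) ^ ε := by positivity
    linarith

/-- The deterministic error tends to zero. -/
theorem det_tendsto : Tendsto (fun n => eDet Ssum (Metric.closedBall 0 1) n) atTop (𝓝 0) := by
  have hlim : Tendsto (fun J : ℕ => ENNReal.ofReal (4 / 2 ^ J)) atTop (𝓝 0) := by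
    have h1 : Tendsto (fun J : ℕ => 4 * ((1 : ℝ) / 2) ^ J) atTop (𝓝 (4 * 0)) :=
      (_root_.tendsto_pow_atTop_nhds_zero_of_lt_one (by norm_num) (by norm_num)).const_mul 4
    rw [mul_zero] at h1
    have h2 := ENNReal.tendsto_ofReal h1
    rw [ENNReal.ofReal_zero] at h2
    refine h2.congr fun J => ?_
    congr 1
    rw [one_div, inv_pow, div_eq_mul_inv]
  rw [ENNReal.tendsto_nhds_zero]
  intro ε hε
  obtain ⟨J, hJ⟩ := (ENNReal.tendsto_nhds_zero.mp hlim ε hε).exists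
  filter_upwards [eventually_ge_atTop (∑ j ∈ Finset.range J, 4 ^ (j ^ 3))] with n hn
  exact (eDet_le J n hn).trans hJ

end Pool.Agent.H5.Gain
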